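import Pool.Agent.U273.AI.H2

/-!
# The Mumford-Tate conjecture for `N ⊕ T`: from one prime number to others
-/

set_option autoImplicit false
set_option linter.unusedSectionVars false
set_option linter.style.haveILetI false

open Matrix Polynomial Filter Topology NumberField IsDedekindDomain
open Pool.Agent.Y142.ZO Pool.Agent.Y142.ZI
open Pool.Agent.Y142.ZS (NiceP GenP Sim SpLie)
open Pool.Agent.Y95.MT Pool.Agent.R932 Pool.Agent.R932.PO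
open Pool.Agent.W544.PG (HS BD)
open Pool.Agent.R932.EV (SS)

namespace Pool.Agent.U273.AI

section
variable {K : Type} [Field K] [NumberField K] {n : ℕ} {S : Set (HeightOneSpectrum (𝓞 K))}
  {P : HeightOneSpectrum (𝓞 K) → ℚ[X]} {Γ : Type} [Group Γ] [TopologicalSpace Γ]
  [IsTopologicalGroup Γ] [CompactSpace Γ] {s : GK K →* Γ} {T : HS n}
  {κ : Type} [Fintype κ] [DecidableEq κ] {kd : Kind}

theorem h2_sys {ℓ : ℕ} [Fact ℓ.Prime] {β : Γ →* Matrix (Fin n) (Fin n) ℤ_[ℓ]}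
    (h : RepT s T S P ℓ β) (hfit : Fits kd T.Q) :
    Sys s kd n ℓ (qrep β) (T.Q.map (algebraMap ℚ ℚ_[ℓ])) S P (fun _ => 1) := by
  refine ⟨continuous_qm.comp h.cont, hfit.map (algebraMap ℚ ℚ_[ℓ]), qdet T, fun γ => ⟨1, ?_, ?_⟩,
    fun v hv hvℓ σ hσ => ⟨h.frob v hv hvℓ σ hσ, ?_⟩⟩
  · rw [one_smul]
    exact h.form γ
  · exact fun _ => rfl
  · rw [Rat.cast_one, one_smul]
    exact h.form (s σ⁻¹)

/-- **from one prime number to 100 percent of the prime numbers and to every prime number at which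
the representation is absolutely irreducible** -/
theorem h2_main (hfit : Fits kd T.Q) (hMT : FullMT T κ) (hS : S.Finite) (hs : Continuous s)
    (α : ∀ (ℓ : ℕ) [Fact ℓ.Prime], Γ →* Matrix κ κ ℚ_[ℓ])
    (hα : ∀ (ℓ : ℕ) [Fact ℓ.Prime], Continuous (α ℓ) ∧ (Set.range (α ℓ)).Finite)
    (β : ∀ (ℓ : ℕ) [Fact ℓ.Prime], Γ →* Matrix (Fin n) (Fin n) ℤ_[ℓ])
    (hβ : ∀ (ℓ : ℕ) [Fact ℓ.Prime], RepT s T S P ℓ (β ℓ))
    (ℓ₀ : ℕ) [hℓ₀ : Fact ℓ₀.Prime] (hal : Allows kd n ℓ₀ (T.Q.map (algebraMap ℚ ℚ_[ℓ₀])))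
    (hone : MTC (hM (fun _ => (1 : Matrix κ κ ℂ)) T) (tot ((α ℓ₀).comp s) ((β ℓ₀).comp s))) :
    Y142.ZI.DensityZero {ℓ | ∃ _ : Fact ℓ.Prime,
      ¬ MTC (hM (fun _ => (1 : Matrix κ κ ℂ)) T) (tot ((α ℓ).comp s) ((β ℓ).comp s))} ∧
    (∀ (ℓ : ℕ) [Fact ℓ.Prime],
      (MTC (hM (fun _ => (1 : Matrix κ κ ℂ)) T) (tot ((α ℓ).comp s) ((β ℓ).comp s)) ↔
        AbsIrr ℓ ((qrep (β ℓ)).comp s)) ∧
      (MTC (hM (fun _ => (1 : Matrix κ κ ℂ)) T) (tot ((α ℓ).comp s) ((β ℓ).comp s)) →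
        MTC (hM (fun _ => (1 : Matrix κ κ ℂ)) T) (tot (α ℓ) (β ℓ)))) ∧
    (Module.finrank ℚ K = 1 → ∀ (χ : ∀ (ℓ : ℕ) [Fact ℓ.Prime], Γ →* ℚ_[ℓ]) (c : ℕ), 0 < c →
      (∀ (ℓ : ℕ) [Fact ℓ.Prime], Continuous (χ ℓ)) →
      (∀ (ℓ : ℕ) [Fact ℓ.Prime], ∀ v ∉ S, (ℓ : 𝓞 K) ∉ v.asIdeal → ∀ σ : GK K,
        IsFrobenius v σ → χ ℓ (s σ⁻¹) = (Ideal.absNorm v.asIdeal : ℚ_[ℓ])) →
      (∀ v ∉ S, ∀ z : ℂ, aeval z (P v) = 0 → ‖z‖ = 1 ∧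
        IsIntegral ℤ ((Ideal.absNorm v.asIdeal : ℂ) ^ c * z)) →
      ∀ (ℓ : ℕ) [Fact ℓ.Prime],
        SS (qrep (β ℓ)) ∧
        (MTC (hM (fun _ => (1 : Matrix κ κ ℂ)) T) (tot ((α ℓ).comp s) ((β ℓ).comp s)) ↔
        ∀ A : Matrix (Fin n) (Fin n) ℚ_[ℓ], (∀ g, A * qrep (β ℓ) (s g) = qrep (β ℓ) (s g) * A) →
          ∃ t : ℚ_[ℓ], A = t • (1 : Matrix (Fin n) (Fin n) ℚ_[ℓ]))) := by
  classical
  have hJ : T.Qᵀ = T.Q := T.symm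
  have hn5 : 5 ≤ n := by
    have h0 : ¬ (T.Qᵀ = -T.Q ∧ 0 < n) := by
      rintro ⟨h1, h2⟩
      have h3 : T.Q = 0 := by
        have h4 : T.Q = -T.Q := hJ.symm.trans h1
        ext a b
        have h5 := congrFun (congrFun h4 a) b
        rw [Matrix.neg_apply] at h5
        rw [Matrix.zero_apply]
        linarith
      have h4 := W74.PG.det_ne T
      haveI : Nonempty (Fin n) := ⟨⟨0, h2⟩⟩
      rw [h3, det_zero] at h4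
      exact h4 rfl
    cases kd with
    | sym => exact absurd hfit h0
    | odd => exact hfit.2.2
    | even => have := hfit.2.2; omega
  have hsys : ∀ (ℓ : ℕ) [Fact ℓ.Prime], Sys s kd n ℓ (qrep (β ℓ))
      (T.Q.map (algebraMap ℚ ℚ_[ℓ])) S P (fun _ => 1) := fun ℓ _ => h2_sys (hβ ℓ) hfit
  have hcβ : ∀ (ℓ : ℕ) [Fact ℓ.Prime], Continuous ((β ℓ).comp s) := fun ℓ _ => (hβ ℓ).cont.comp hs
  have hfα : ∀ (ℓ : ℕ) [Fact ℓ.Prime], (Set.range ((α ℓ).comp s)).Finite := fun ℓ _ =>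
    (hα ℓ).2.subset (by rintro _ ⟨g, rfl⟩; exact ⟨s g, rfl⟩)
  have hfull₀ : ∀ X, SpLie (T.Q.map (algebraMap ℚ ℚ_[ℓ₀])) X →
      IsTangent ℓ₀ ((qrep (β ℓ₀)).comp s) X :=
    full_of_mtc (G := GK K) (β := (β ℓ₀).comp s) hn5 hMT (hcβ ℓ₀) (fun σ => (hβ ℓ₀).form (s σ)) hone
  have hmtc : ∀ (ℓ : ℕ) [Fact ℓ.Prime], (∀ X, SpLie (T.Q.map (algebraMap ℚ ℚ_[ℓ])) X →
      IsTangent ℓ ((qrep (β ℓ)).comp s) X) →
      MTC (hM (fun _ => (1 : Matrix κ κ ℂ)) T) (tot ((α ℓ).comp s) ((β ℓ).comp s)) := fun ℓ _ h =>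
    mtc_of_full' (G := GK K) (β := (β ℓ).comp s) hMT ((hα ℓ).1.comp hs) (hfα ℓ) (hcβ ℓ)
      (fun σ => (hβ ℓ).form (s σ)) h
  have hcomp := fun (ℓ : ℕ) [Fact ℓ.Prime] => sys_comp hs (hsys ℓ)
  have hiff : ∀ (ℓ : ℕ) [Fact ℓ.Prime],
      MTC (hM (fun _ => (1 : Matrix κ κ ℂ)) T) (tot ((α ℓ).comp s) ((β ℓ).comp s)) ↔
        AbsIrr ℓ ((qrep (β ℓ)).comp s) := by
    intro ℓ _
    constructor
    · intro h
      exact abs_of_mtc (G := GK K) (β := (β ℓ).comp s) (by omega) hMT h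
    · intro h
      exact hmtc ℓ (one_abs (s := MonoidHom.id (GK K)) continuous_id hS
        (fun ℓ _ => (qrep (β ℓ)).comp s) (fun ℓ _ => T.Q.map (algebraMap ℚ ℚ_[ℓ]))
        (fun ℓ _ => hcomp ℓ) ℓ₀ hal hfull₀ ℓ h)
  refine ⟨?_, fun ℓ _ => ⟨hiff ℓ, fun h => ?_⟩, ?_⟩
  · refine Y142.ZI.DensityZero.mono (one_dens hs hS (fun ℓ _ => qrep (β ℓ))
      (fun ℓ _ => T.Q.map (algebraMap ℚ ℚ_[ℓ])) (fun ℓ _ => hsys ℓ) ℓ₀ hal hfull₀) ?_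
    rintro ℓ ⟨hp, hno⟩
    exact ⟨hp, fun h => hno (hmtc ℓ h)⟩
  · have h1 := full_of_mtc (G := GK K) (β := (β ℓ).comp s) hn5 hMT (hcβ ℓ)
      (fun σ => (hβ ℓ).form (s σ)) h
    refine mtc_of_full' hMT (hα ℓ).1 (hα ℓ).2 (hβ ℓ).cont (hβ ℓ).form fun X hX => ?_
    obtain ⟨σ, hσ⟩ := h1 X hX
    exact ⟨fun k => s (σ k), hσ⟩
  · intro hK χ c hc hχc hχ hP ℓ _
    have hP' : ∀ v ∉ S, ∀ z : ℂ, aeval z (P v) = 0 →
        ‖z‖ ^ 2 = (Ideal.absNorm v.asIdeal : ℝ) ^ 0 ∧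
        IsIntegral ℤ ((Ideal.absNorm v.asIdeal : ℂ) ^ c * z) := by
      intro v hv z hz
      obtain ⟨h1, h2⟩ := hP v hv z hz
      refine ⟨by rw [h1, one_pow, pow_zero], h2⟩
    have hmult : ∀ (ℓ : ℕ) [Fact ℓ.Prime] (g : Γ), (qrep (β ℓ) g)ᵀ *
        T.Q.map (algebraMap ℚ ℚ_[ℓ]) * qrep (β ℓ) g =
        (χ ℓ g ^ 0) • T.Q.map (algebraMap ℚ ℚ_[ℓ]) := by
      intro ℓ _ g
      rw [pow_zero, one_smul]
      exact (hβ ℓ).form g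
    refine ⟨ss_every hK hs hS (fun ℓ _ => qrep (β ℓ)) (fun ℓ _ => T.Q.map (algebraMap ℚ ℚ_[ℓ]))
      (fun ℓ _ => hsys ℓ) χ hχc (w := 0) (c := c) (by omega) hmult hχ hP' ℓ₀ hfull₀ ℓ, ?_⟩
    rw [hiff ℓ]
    constructor
    · intro h A hA
      exact scalar_of_abs (L := AlgebraicClosure ℚ_[ℓ]) (ρ := (qrep (β ℓ)).comp s) h hA
    · intro h
      exact every_Q hK hs hS (fun ℓ _ => qrep (β ℓ)) (fun ℓ _ => T.Q.map (algebraMap ℚ ℚ_[ℓ]))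
        (fun ℓ _ => hsys ℓ) χ hχc (w := 0) (c := c) (by omega) hmult hχ hP' ℓ₀ hfull₀ ℓ h

end

end Pool.Agent.U273.AI
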