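import Mathlib

/-!
# Polynomials with integral roots, and the characteristic polynomial of a multiple
-/

set_option autoImplicit false
set_option linter.unusedSectionVars false

open Matrix Polynomial

namespace Pool.Agent.U273.AI

/-- a rational polynomial whose complex roots are algebraic integers has integral coefficients -/
theorem exists_int_poly {p : ℚ[X]} (hp : p.Monic)
    (h : ∀ z : ℂ, aeval z p = 0 → IsIntegral ℤ z) :
    ∃ q : ℤ[X], q.Monic ∧ q.map (algebraMap ℤ ℚ) = p := by
  have hc : ∀ i, IsIntegral ℤ (algebraMap ℚ ℂ (p.coeff i)) := by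
    intro i
    have h1 : p.map (algebraMap ℚ ℂ) ∈ lifts (algebraMap (integralClosure ℤ ℂ) ℂ) := by
      rw [(IsAlgClosed.splits (p.map (algebraMap ℚ ℂ))).eq_prod_roots_of_monic (hp.map _)]
      refine Subsemiring.multiset_prod_mem _ _ fun f hf => ?_
      obtain ⟨z, hz, rfl⟩ := Multiset.mem_map.1 hf
      have h2 : aeval z p = 0 := by
        rw [Polynomial.mem_roots (hp.map _).ne_zero, IsRoot.def, eval_map] at hz
        rw [aeval_def]
        exact hz
      rw [lifts_iff_coeff_lifts]
      intro n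
      rw [coeff_sub, coeff_X, coeff_C]
      have h3 : IsIntegral ℤ ((if 1 = n then (1 : ℂ) else 0) - if n = 0 then z else 0) := by
        refine IsIntegral.sub ?_ ?_
        · split_ifs
          · exact isIntegral_one
          · exact isIntegral_zero
        · split_ifs
          · exact h z h2
          · exact isIntegral_zero
      exact ⟨⟨_, h3⟩, rfl⟩
    rw [lifts_iff_coeff_lifts] at h1
    obtain ⟨y, hy⟩ := h1 i
    rw [coeff_map] at hy
    rw [← hy]
    exact y.2
  have h1 : p ∈ lifts (algebraMap ℤ ℚ) := by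
    rw [lifts_iff_coeff_lifts]
    intro i
    have h2 : IsIntegral ℤ (p.coeff i) :=
      (isIntegral_algebraMap_iff (algebraMap ℚ ℂ).injective).1 (hc i)
    obtain ⟨m, hm⟩ := IsIntegrallyClosed.isIntegral_iff.1 h2
    exact ⟨m, hm⟩
  obtain ⟨q, hq, -, hqm⟩ := lifts_and_natDegree_eq_and_monic h1 hp
  exact ⟨q, hqm, hq⟩

/-- the characteristic polynomial of a multiple -/
theorem charpoly_scale {F : Type*} [Field F] [Infinite F] {N : ℕ} (A : Matrix (Fin N) (Fin N) F)
    {t : F} (ht : t ≠ 0) : (t • A).charpoly = A.charpoly.scaleRoots t := by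
  refine Polynomial.funext fun x => ?_
  obtain ⟨y, rfl⟩ : ∃ y, x = t * y := ⟨x / t, by field_simp⟩
  have h1 := scaleRoots_eval₂_mul (p := A.charpoly) (RingHom.id F) y t
  rw [RingHom.id_apply, eval₂_id, eval₂_id, charpoly_natDegree_eq_dim, Fintype.card_fin] at h1
  rw [h1, Matrix.eval_charpoly, Matrix.eval_charpoly]
  have h2 : (scalar (Fin N)) (t * y) - t • A = t • ((scalar (Fin N)) y - A) := by
    ext i j
    rw [Matrix.smul_apply, Matrix.sub_apply, Matrix.sub_apply, Matrix.smul_apply, scalar_apply,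
      scalar_apply, diagonal_apply, diagonal_apply, smul_eq_mul, smul_eq_mul]
    split_ifs <;> ring
  rw [h2, det_smul, Fintype.card_fin]

/-- **the scaled polynomial has integral coefficients** -/
theorem exists_scaled {p : ℚ[X]} (hp : p.Monic) {t : ℚ} (ht : t ≠ 0)
    (h : ∀ z : ℂ, aeval z p = 0 → IsIntegral ℤ ((t : ℂ) * z)) :
    ∃ q : ℤ[X], q.Monic ∧ q.map (algebraMap ℤ ℚ) = p.scaleRoots t ∧
      ∀ z : ℂ, aeval z q = 0 → aeval (z / t) p = 0 := by
  have key : ∀ z : ℂ, aeval z (p.scaleRoots t) = 0 → aeval (z / t) p = 0 := by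
    intro z hz
    have h1 := scaleRoots_eval₂_mul (p := p) (algebraMap ℚ ℂ) (z / t) t
    have ht' : (algebraMap ℚ ℂ) t ≠ 0 := by
      rw [_root_.map_ne_zero]
      exact ht
    have h2 : (algebraMap ℚ ℂ) t * (z / t) = z := by
      rw [eq_ratCast] at ht' ⊢
      field_simp
    rw [h2] at h1
    rw [aeval_def] at hz ⊢
    rw [hz] at h1
    exact (mul_eq_zero.1 h1.symm).resolve_left (pow_ne_zero _ ht')
  obtain ⟨q, hq, hqp⟩ := exists_int_poly ((monic_scaleRoots_iff t).2 hp) (fun z hz => by
    have h1 := h _ (key z hz)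
    have h2 : (t : ℂ) * (z / t) = z := by
      have : (t : ℂ) ≠ 0 := by exact_mod_cast ht
      field_simp
    rwa [h2] at h1)
  refine ⟨q, hq, hqp, fun z hz => key z ?_⟩
  rw [← hqp, aeval_map_algebraMap]
  exact hz

end Pool.Agent.U273.AI
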