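import Mathlib

/-!
# Absolutely irreducible representations: eigenbases and descent of subspaces
-/

set_option autoImplicit false
set_option linter.unusedSectionVars false
set_option linter.style.haveILetI false

open Matrix Polynomial

namespace Pool.Agent.U273.AI

/-- a matrix with separable characteristic polynomial over an algebraically closed field has a basis
of eigenvectors -/
theorem exists_eigenbasis {L : Type*} [Field L] [IsAlgClosed L] {N : ℕ}
    (A : Matrix (Fin N) (Fin N) L) (hsep : A.charpoly.Separable) :
    ∃ (lam : Fin N → L) (e : Module.Basis (Fin N) L (Fin N → L)), Function.Injective lam ∧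
      (∀ a, A *ᵥ e a = lam a • e a) ∧ ∀ a, A.charpoly.eval (lam a) = 0 := by
  classical
  have hmon := A.charpoly_monic
  have hcard : A.charpoly.roots.toFinset.card = N := by
    rw [Multiset.toFinset_card_of_nodup (Polynomial.nodup_roots hsep)]
    have h1 := (IsAlgClosed.splits A.charpoly).natDegree_eq_card_roots
    rw [← h1, Matrix.charpoly_natDegree_eq_dim, Fintype.card_fin]
  let E : Fin N ≃ A.charpoly.roots.toFinset := (Finset.equivFinOfCardEq hcard).symm
  let lam : Fin N → L := fun a => (E a : L)
  have hlam : Function.Injective lam := fun a b h => E.injective (Subtype.ext h)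
  have hroot : ∀ a, A.charpoly.eval (lam a) = 0 := by
    intro a
    have h1 : (E a : L) ∈ A.charpoly.roots := Multiset.mem_toFinset.1 (E a).2
    exact (Polynomial.mem_roots hmon.ne_zero).1 h1
  have hv : ∀ a, ∃ v : Fin N → L, v ≠ 0 ∧ A *ᵥ v = lam a • v := by
    intro a
    have h1 := hroot a
    rw [Matrix.eval_charpoly] at h1
    obtain ⟨v, hv0, hv⟩ := Matrix.exists_mulVec_eq_zero_iff.2 h1
    refine ⟨v, hv0, ?_⟩
    rw [sub_mulVec, sub_eq_zero] at hv
    rw [← hv, Matrix.scalar_apply, ← Matrix.smul_one_eq_diagonal, smul_mulVec, one_mulVec]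
  choose v hv0 hv using hv
  have hli : LinearIndependent L v := by
    refine Module.End.eigenvectors_linearIndependent' (toLin' A) lam hlam v fun a => ?_
    rw [Module.End.hasEigenvector_iff, Module.End.mem_eigenspace_iff]
    exact ⟨by rw [toLin'_apply]; exact hv a, hv0 a⟩
  rcases Nat.eq_zero_or_pos N with hN | hN
  · subst hN
    exact ⟨lam, Module.Basis.empty _, hlam, fun a => a.elim0, fun a => a.elim0⟩
  · haveI : Nonempty (Fin N) := ⟨⟨0, hN⟩⟩
    refine ⟨lam, basisOfLinearIndependentOfCardEqFinrank hli (by simp), hlam, fun a => ?_, hroot⟩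
    rw [coe_basisOfLinearIndependentOfCardEqFinrank]
    exact hv a

/-- a proper subspace lies in the kernel of a nonzero functional -/
theorem exists_functional {F : Type*} [Field F] {N : ℕ} {W : Submodule F (Fin N → F)} (hW : W ≠ ⊤) :
    ∃ u : Fin N → F, u ≠ 0 ∧ ∀ w ∈ W, u ⬝ᵥ w = 0 := by
  classical
  obtain ⟨f, hf0, hf⟩ := W.exists_le_ker_of_lt_top (lt_top_iff_ne_top.2 hW)
  refine ⟨fun i => f (Pi.single i 1), ?_, fun w hw => ?_⟩
  · intro h
    apply hf0
    refine LinearMap.pi_ext' fun i => LinearMap.ext_ring ?_
    have := congrFun h i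
    simpa using this
  · have h1 : f w = 0 := hf hw
    rw [← h1, dotProduct]
    conv_rhs => rw [← Finset.univ_sum_single w]
    rw [map_sum]
    refine Finset.sum_congr rfl fun i _ => ?_
    have h2 : (Pi.single i (w i) : Fin N → F) = w i • Pi.single i 1 := by
      rw [← Pi.single_smul, smul_eq_mul, mul_one]
    rw [h2, map_smul, smul_eq_mul, mul_comm]

section descent

variable {F L : Type*} [Field F] [Field L] [Algebra F L] {N : ℕ} {G : Type*} [Group G]

/-- no proper nonzero stable subspace -/
def Irr (R : G →* Matrix (Fin N) (Fin N) L) : Prop :=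
  ∀ W : Submodule L (Fin N → L), (∀ g, ∀ w ∈ W, R g *ᵥ w ∈ W) → W = ⊥ ∨ W = ⊤

/-- irreducibility descends -/
theorem irr_of_map {ρ : G →* Matrix (Fin N) (Fin N) F}
    (h : Irr ((RingHom.mapMatrix (algebraMap F L)).toMonoidHom.comp ρ)) : Irr ρ := by
  classical
  intro W hW
  let W' : Submodule L (Fin N → L) := Submodule.span L ((fun w : Fin N → F => algebraMap F L ∘ w) '' W)
  have hmap : ∀ (g : G) (w : Fin N → F),
      (ρ g).map (algebraMap F L) *ᵥ (algebraMap F L ∘ w) = algebraMap F L ∘ (ρ g *ᵥ w) := by
    intro g w
    ext i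
    simp only [Function.comp_apply]
    rw [RingHom.map_mulVec]
  rcases h W' (by
    intro g w hw
    induction hw using Submodule.span_induction with
    | mem x hx =>
      obtain ⟨w, hw, rfl⟩ := hx
      apply Submodule.subset_span
      refine ⟨ρ g *ᵥ w, hW g w hw, ?_⟩
      exact (hmap g w).symm
    | zero => rw [mulVec_zero]; exact Submodule.zero_mem _
    | add x y _ _ hx hy => rw [mulVec_add]; exact Submodule.add_mem _ hx hy
    | smul a x _ hx => rw [mulVec_smul]; exact Submodule.smul_mem _ _ hx) with h1 | h1
  · left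
    rw [Submodule.eq_bot_iff]
    intro w hw
    have h2 : algebraMap F L ∘ w ∈ W' := Submodule.subset_span ⟨w, hw, rfl⟩
    rw [h1, Submodule.mem_bot] at h2
    ext i
    have h3 := congrFun h2 i
    simp only [Function.comp_apply, Pi.zero_apply, map_eq_zero] at h3
    exact h3
  · right
    by_contra hne
    obtain ⟨u, hu0, hu⟩ := exists_functional hne
    have h2 : ∀ x ∈ W', (algebraMap F L ∘ u) ⬝ᵥ x = 0 := by
      intro x hx
      induction hx using Submodule.span_induction with
      | mem x hx =>
        obtain ⟨w, hw, rfl⟩ := hx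
        have h3 := congrArg (algebraMap F L) (hu w hw)
        rw [map_zero, dotProduct, map_sum] at h3
        rw [dotProduct, ← h3]
        refine Finset.sum_congr rfl fun i _ => ?_
        simp only [Function.comp_apply, map_mul]
      | zero => rw [dotProduct_zero]
      | add x y _ _ hx hy => rw [dotProduct_add, hx, hy, add_zero]
      | smul a x _ hx => rw [dotProduct_smul, hx, smul_zero]
    apply hu0
    ext i
    have h3 := h2 (Pi.single i 1) (by rw [h1]; trivial)
    rw [dotProduct_single_one] at h3
    simp only [Function.comp_apply, map_eq_zero] at h3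
    exact h3

/-- a matrix which is scalar over a larger field is scalar -/
theorem scalar_of_map {A : Matrix (Fin N) (Fin N) F} {c : L}
    (h : A.map (algebraMap F L) = c • (1 : Matrix (Fin N) (Fin N) L)) :
    ∃ c : F, A = c • (1 : Matrix (Fin N) (Fin N) F) := by
  classical
  rcases Nat.eq_zero_or_pos N with hN | hN
  · subst hN
    exact ⟨0, Subsingleton.elim _ _⟩
  · refine ⟨A ⟨0, hN⟩ ⟨0, hN⟩, ?_⟩
    have hent : ∀ i j, algebraMap F L (A i j) = c * (if i = j then 1 else 0) := by
      intro i j
      have h1 := congrFun (congrFun h i) j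
      rw [Matrix.map_apply] at h1
      rw [h1, Matrix.smul_apply, Matrix.one_apply, smul_eq_mul]
    have h0 := hent ⟨0, hN⟩ ⟨0, hN⟩
    rw [if_pos rfl, mul_one] at h0
    ext i j
    apply (algebraMap F L).injective
    rw [hent i j, ← h0, Matrix.smul_apply, Matrix.one_apply, smul_eq_mul]
    by_cases hij : i = j
    · rw [if_pos hij, if_pos hij, mul_one, mul_one]
    · rw [if_neg hij, if_neg hij, mul_zero, mul_zero, map_zero]

end descent

end Pool.Agent.U273.AI
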