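import Pool.Agent.R932.PO.All

/-!
# Places with simple Frobenius eigenvalues, from the full Lie algebra at one prime
-/

set_option autoImplicit false
set_option linter.unusedSectionVars false
set_option linter.style.haveILetI false

open Matrix Polynomial Filter Topology NumberField IsDedekindDomain
open Pool.Agent.Y142.ZO Pool.Agent.Y142.ZI Pool.Agent.Y142.ZS
open Pool.Agent.R932.OP Pool.Agent.R932.PO Pool.Agent.R932.EV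

namespace Pool.Agent.U273.AI

section
variable {K : Type} [Field K] [NumberField K] {N : ℕ} {S : Set (HeightOneSpectrum (𝓞 K))}
  {P : HeightOneSpectrum (𝓞 K) → ℚ[X]} {q : HeightOneSpectrum (𝓞 K) → ℚ}
  {Γ : Type} [Group Γ] [TopologicalSpace Γ] [IsTopologicalGroup Γ] [CompactSpace Γ]
  {s : GK K →* Γ} {κ : Kind}

theorem nice_exists (hs : Continuous s) (hS : S.Finite)
    (ρ : ∀ (ℓ : ℕ) [Fact ℓ.Prime], Γ →* Matrix (Fin N) (Fin N) ℚ_[ℓ])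
    (J : ∀ (ℓ : ℕ) [Fact ℓ.Prime], Matrix (Fin N) (Fin N) ℚ_[ℓ])
    (hsys : ∀ (ℓ : ℕ) [Fact ℓ.Prime], Sys s κ N ℓ (ρ ℓ) (J ℓ) S P q)
    (ℓ₀ : ℕ) [hℓ₀ : Fact ℓ₀.Prime] (hal : Allows κ N ℓ₀ (J ℓ₀))
    (hfull : ∀ X, SpLie (J ℓ₀) X → IsTangent ℓ₀ ((ρ ℓ₀).comp s) X)
    (T : Set (HeightOneSpectrum (𝓞 K))) (hT : T.Finite) :
    ∃ v, v ∉ T ∧ NiceP S P v := by
  have h2 := Allows.ne_two (hsys ℓ₀).2.1 hal
  have hout : ∀ v, NiceP (S ∪ T) P v → ∃ v, v ∉ T ∧ NiceP S P v := fun v hv =>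
    ⟨v, fun h => hv.1 (Or.inr h), fun h => hv.1 (Or.inl h), hv.2⟩
  cases κ with
  | sym =>
    have hsys0 : ∀ (ℓ : ℕ) [Fact ℓ.Prime], SpSys K N ℓ ((ρ ℓ).comp s) (J ℓ) S P q :=
      fun ℓ _ => (hsys ℓ).toSp hs
    have hNpos := (hsys ℓ₀).2.1.pos
    obtain ⟨m, hm⟩ : ∃ m, N = 2 * m + 2 := by
      obtain ⟨k, hk⟩ := even_of_alt (hsys0 ℓ₀).2.1 (hsys0 ℓ₀).2.2.1
      exact ⟨k - 1, by omega⟩
    subst hm
    have hsys' : ∀ (p : ℕ) [Fact p.Prime], SpSys K (2 * m + 2) p ((ρ p).comp s) (J p)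
        (S ∪ T) P q := fun p _ =>
      ⟨(hsys0 p).1, (hsys0 p).2.1, (hsys0 p).2.2.1, (hsys0 p).2.2.2.1,
        fun v hv => (hsys0 p).2.2.2.2 v fun h => hv (Or.inl h)⟩
    obtain ⟨v, -, hv, -, -⟩ := start Y537.ZI.t Y405.ZO.t Y779.ZS.t sform typcu typg
      (hS.union hT) (fun p _ => (ρ p).comp s) J hsys' ℓ₀ h2 hfull
    exact hout v hv
  | odd =>
    have hJ : ∀ (ℓ : ℕ) [Fact ℓ.Prime], (J ℓ)ᵀ = J ℓ := fun ℓ _ => (hsys ℓ).2.1.1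
    have hsys0 : ∀ (ℓ : ℕ) [Fact ℓ.Prime], Orthogonal K N ℓ ((ρ ℓ).comp s) (J ℓ) S P :=
      fun ℓ _ => (hsys ℓ).toOrth hs (hJ ℓ)
    obtain ⟨m, hm⟩ : ∃ m, N = 2 * m + 3 := by
      obtain ⟨k, hk⟩ := (hsys ℓ₀).2.1.2.1
      have := (hsys ℓ₀).2.1.2.2
      exact ⟨k - 1, by omega⟩
    subst hm
    have hdvd' : ¬ ℓ₀ ∣ 2 * (m + 1) := by
      have h3 : ¬ ℓ₀ ∣ 2 * m + 3 - 1 := hal
      rwa [show 2 * m + 3 - 1 = 2 * (m + 1) by omega] at h3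
    have hsys' : ∀ (p : ℕ) [Fact p.Prime], Orthogonal K (2 * m + 3) p ((ρ p).comp s) (J p)
        (S ∪ T) P := fun p _ =>
      ⟨(hsys0 p).1, (hsys0 p).2.1, (hsys0 p).2.2.1, (hsys0 p).2.2.2.1,
        fun v hv => (hsys0 p).2.2.2.2 v fun h => hv (Or.inl h)⟩
    obtain ⟨v₁, Q₁, hv₁, -, -⟩ := cyc_of_full Y405.ZO.t Y537.ZI.t Y949.ZI.t Y484.ZI.t2 unr
      R499.OP.form2 typc (hS.union hT) (fun p _ => (ρ p).comp s) J hsys' ℓ₀ hdvd'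
      (fun X hX => hfull X ((skew_sp (hJ ℓ₀)).1 hX))
    exact hout v₁ (niceP_of_nicePlace hv₁)
  | even =>
    have hJ : ∀ (ℓ : ℕ) [Fact ℓ.Prime], (J ℓ)ᵀ = J ℓ := fun ℓ _ => (hsys ℓ).2.1.1
    have hsys0 : ∀ (ℓ : ℕ) [Fact ℓ.Prime], Orthogonal K N ℓ ((ρ ℓ).comp s) (J ℓ) S P :=
      fun ℓ _ => (hsys ℓ).toOrth hs (hJ ℓ)
    obtain ⟨n, hn⟩ : ∃ n, N = 2 * n := by
      obtain ⟨k, hk⟩ := (hsys ℓ₀).2.1.2.1
      exact ⟨k, by omega⟩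
    have hN8 := (hsys ℓ₀).2.1.2.2
    have hn4 : 4 ≤ n := by omega
    have hL : ¬ ℓ₀ ∣ 4 * ((n - 1) * (n - 2)) := by
      have h1 : (N - 2) * (N - 4) = 4 * ((n - 1) * (n - 2)) := by
        have h2 : N - 2 = 2 * (n - 1) := by omega
        have h3 : N - 4 = 2 * (n - 2) := by omega
        rw [h2, h3]
        ring
      have h4 := hal.1
      rwa [h1] at h4
    have hsys' : ∀ (p : ℕ) [Fact p.Prime], Orthogonal K N p ((ρ p).comp s) (J p)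
        (S ∪ T) P := fun p _ =>
      ⟨(hsys0 p).1, (hsys0 p).2.1, (hsys0 p).2.2.1, (hsys0 p).2.2.2.1,
        fun v hv => (hsys0 p).2.2.2.2 v fun h => hv (Or.inl h)⟩
    obtain ⟨-, -, w, -, -, hw, -⟩ := Y142.ZD.startE hn4 hn Y537.ZI.t Y405.ZO.t chare Y331.ZD.t fda fdb
      typd3 (tame nr) (hS.union hT) (fun p _ => (ρ p).comp s) J hsys' ℓ₀ hL
      (fun X hX => hfull X ((skew_sp (hJ ℓ₀)).1 hX)) hal.2
    exact hout w hw.1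

end

end Pool.Agent.U273.AI
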