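import Pool.Agent.U273.AI.Tr
import Pool.Agent.U273.AI.Nice
import Pool.Agent.U273.AI.Eig

/-!
# From one prime number to every prime number with an absolutely irreducible representation
-/

set_option autoImplicit false
set_option linter.unusedSectionVars false
set_option linter.style.haveILetI false

open Matrix Polynomial Filter Topology NumberField IsDedekindDomain
open Pool.Agent.Y142.ZO Pool.Agent.Y142.ZI Pool.Agent.Y142.ZS
open Pool.Agent.R932.OP Pool.Agent.R932.PO Pool.Agent.R932.EV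

namespace Pool.Agent.U273.AI

/-- absolutely irreducible: no proper nonzero stable subspace over the algebraic closure -/
def AbsIrr (ℓ : ℕ) [Fact ℓ.Prime] {N : ℕ} {G : Type} [Group G]
    (ρ : G →* Matrix (Fin N) (Fin N) ℚ_[ℓ]) : Prop :=
  ∀ W : Submodule (AlgebraicClosure ℚ_[ℓ]) (Fin N → AlgebraicClosure ℚ_[ℓ]),
    (∀ g, ∀ w ∈ W, (ρ g).map (algebraMap ℚ_[ℓ] (AlgebraicClosure ℚ_[ℓ])) *ᵥ w ∈ W) →
      W = ⊥ ∨ W = ⊤

section
variable {K : Type} [Field K] [NumberField K] {N : ℕ} {S : Set (HeightOneSpectrum (𝓞 K))}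
  {P : HeightOneSpectrum (𝓞 K) → ℚ[X]} {q : HeightOneSpectrum (𝓞 K) → ℚ}
  {Γ : Type} [Group Γ] [TopologicalSpace Γ] [IsTopologicalGroup Γ] [CompactSpace Γ]
  {s : GK K →* Γ} {κ : Kind}

omit [TopologicalSpace Γ] [IsTopologicalGroup Γ] [CompactSpace Γ] in
theorem ss_of_abs {ℓ : ℕ} [Fact ℓ.Prime] {ρ : Γ →* Matrix (Fin N) (Fin N) ℚ_[ℓ]}
    (h : AbsIrr ℓ (ρ.comp s)) : SS ρ := by
  have h1 : Irr (ρ.comp s) := irr_of_map (L := AlgebraicClosure ℚ_[ℓ]) h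
  intro W hW
  rcases h1 W (fun g w hw => hW (s g) w hw) with h2 | h2
  · refine ⟨⊤, ?_, fun _ _ _ => trivial⟩
    rw [h2]
    exact isCompl_bot_top
  · refine ⟨⊥, ?_, fun σ w hw => ?_⟩
    · rw [h2]
      exact isCompl_top_bot
    · rw [Submodule.mem_bot] at hw ⊢
      rw [hw, mulVec_zero]

/-- **absolutely irreducible representations of the system have scalar commutants over all open
subgroups** -/
theorem sc_of_abs (hs : Continuous s) (hS : S.Finite)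
    (ρ : ∀ (ℓ : ℕ) [Fact ℓ.Prime], Γ →* Matrix (Fin N) (Fin N) ℚ_[ℓ])
    (J : ∀ (ℓ : ℕ) [Fact ℓ.Prime], Matrix (Fin N) (Fin N) ℚ_[ℓ])
    (hsys : ∀ (ℓ : ℕ) [Fact ℓ.Prime], Sys s κ N ℓ (ρ ℓ) (J ℓ) S P q)
    (ℓ₀ : ℕ) [hℓ₀ : Fact ℓ₀.Prime] (hal : Allows κ N ℓ₀ (J ℓ₀))
    (hfull : ∀ X, SpLie (J ℓ₀) X → IsTangent ℓ₀ ((ρ ℓ₀).comp s) X)
    (ℓ : ℕ) [hℓ : Fact ℓ.Prime] (habs : AbsIrr ℓ ((ρ ℓ).comp s)) : SC (ρ ℓ) := by
  classical
  intro A U hU hA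
  have hVo : IsOpen ((U.comap s : Subgroup (GK K)) : Set (GK K)) := hU.preimage hs
  obtain ⟨H, hH⟩ := IsTopologicalGroup.exist_openNormalSubgroup_sub_clopen_nhds_of_one
    (⟨(U.comap s).isClosed_of_isOpen hVo, hVo⟩ : IsClopen ((U.comap s : Subgroup (GK K)) : Set (GK K)))
    (U.comap s).one_mem
  haveI hnor : (H.toSubgroup).Normal := H.isNormal'
  have hHo : IsOpen ((H.toSubgroup : Subgroup (GK K)) : Set (GK K)) := H.isOpen'
  haveI : Finite (GK K ⧸ H.toSubgroup) := H.toSubgroup.quotient_finite_of_isOpen hHo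
  haveI hfi : (H.toSubgroup).FiniteIndex := Subgroup.finiteIndex_of_finite_quotient
  obtain ⟨v, hvT, hnice⟩ := nice_exists hs hS ρ J hsys ℓ₀ hal hfull
    {v | (ℓ : 𝓞 K) ∈ v.asIdeal} (finite_above ℓ hℓ.out)
  obtain ⟨σ, hσ⟩ := Pool.Agent.W401.Frob.exists_frob v
  have hchar := ((hsys ℓ).2.2.2.2 v hnice.1 hvT σ hσ).1
  let a := algebraMap ℚ_[ℓ] (AlgebraicClosure ℚ_[ℓ])
  let R : GK K →* Matrix (Fin N) (Fin N) (AlgebraicClosure ℚ_[ℓ]) :=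
    (RingHom.mapMatrix (m := Fin N) a).toMonoidHom.comp ((ρ ℓ).comp s)
  have hR : ∀ g, R g = (ρ ℓ (s g)).map a := fun g => rfl
  have hcharR : (R σ⁻¹).charpoly = (ρ ℓ (s σ⁻¹)).charpoly.map a := by
    rw [hR, Matrix.charpoly_map]
  obtain ⟨lam, e, hlam, hev, hroot⟩ := exists_eigenbasis (R σ⁻¹)
    (by rw [hcharR, hchar]; exact (hnice.2.2.1.map).map)
  have hroot' : ∀ b, aeval (lam b) ((P v).map (algebraMap ℚ ℚ_[ℓ])) = 0 := by
    intro b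
    have h1 := hroot b
    rw [hcharR, hchar, eval_map] at h1
    rw [aeval_def]
    exact h1
  have hm : 0 < (H.toSubgroup).index := Nat.pos_of_ne_zero hfi.index_ne_zero
  have hγ : σ⁻¹ ^ (H.toSubgroup).index ∈ H.toSubgroup := Subgroup.pow_index_mem _ _
  have hevm : ∀ b, R (σ⁻¹ ^ (H.toSubgroup).index) *ᵥ e b = lam b ^ (H.toSubgroup).index • e b := by
    intro b
    rw [map_pow]
    generalize (H.toSubgroup).index = m
    induction m with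
    | zero => rw [pow_zero, pow_zero, one_mulVec, one_smul]
    | succ m ih =>
      rw [pow_succ, ← mulVec_mulVec, hev, mulVec_smul, ih, smul_smul, pow_succ, mul_comm]
  have hinj : Function.Injective (fun b => lam b ^ (H.toSubgroup).index) := fun b c h =>
    hlam (Pool.Agent.Y142.ZD.dist_of_nice hnice ℓ (H.toSubgroup).index (lam b) (lam c) hm (hroot' b)
      (hroot' c) h)
  rcases scalar_or_trace (R := R) (Δ := H.toSubgroup) (e := e) hγ hinj hevm habs with h | ⟨g, hg⟩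
  · obtain ⟨c, hc⟩ := h (A.map a) (by
      intro δ hδ
      rw [hR, ← Matrix.map_mul, hA (s δ) (hH hδ), Matrix.map_mul])
    exact scalar_of_map hc
  · exfalso
    have hO : IsOpen {τ : GK K | g⁻¹ * τ ∈ H.toSubgroup} := hHo.preimage (continuous_const_mul g⁻¹)
    have hz : ∀ τ ∈ {τ : GK K | g⁻¹ * τ ∈ H.toSubgroup}, (((ρ ℓ).comp s) τ).trace = 0 := by
      intro τ hτ
      have h1 := hg (g⁻¹ * τ) hτ
      rw [mul_inv_cancel_left, hR] at h1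
      have h2 : ((ρ ℓ (s τ)).map a).trace = a (ρ ℓ (s τ)).trace :=
        (AddMonoidHom.map_trace a (ρ ℓ (s τ))).symm
      rw [h2, map_eq_zero] at h1
      exact h1
    have h0 := trace_transfer (P := P) hS (ρ := (ρ ℓ).comp s) (ρ₀ := (ρ ℓ₀).comp s)
      ((hsys ℓ₀).1.comp hs) (fun v hv hvℓ σ hσ => ((hsys ℓ).2.2.2.2 v hv hvℓ σ hσ).1)
      (fun v hv hvℓ σ hσ => ((hsys ℓ₀).2.2.2.2 v hv hvℓ σ hσ).1) hO hz
    have hform : ((J ℓ₀)ᵀ = J ℓ₀ ∧ 3 ≤ N) ∨ (J ℓ₀)ᵀ = -(J ℓ₀) := by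
      rcases ((hsys ℓ₀).2.1.isForm (hsys ℓ₀).2.2.1).1 with h | h
      · exact Or.inl ⟨h.1, by have := h.2; omega⟩
      · exact Or.inr h
    exact trace_ne ((ρ ℓ₀).comp s) hform (hsys ℓ₀).2.2.1 (hsys ℓ₀).2.1.pos
      (fun X hX => hfull X hX) H.toSubgroup g (fun δ hδ => h0 (g * δ) (by
        show g⁻¹ * (g * δ) ∈ H.toSubgroup
        rwa [inv_mul_cancel_left]))

/-- **one system: from one prime number to every prime number at which the representation is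
absolutely irreducible** -/
theorem one_abs (hs : Continuous s) (hS : S.Finite)
    (ρ : ∀ (ℓ : ℕ) [Fact ℓ.Prime], Γ →* Matrix (Fin N) (Fin N) ℚ_[ℓ])
    (J : ∀ (ℓ : ℕ) [Fact ℓ.Prime], Matrix (Fin N) (Fin N) ℚ_[ℓ])
    (hsys : ∀ (ℓ : ℕ) [Fact ℓ.Prime], Sys s κ N ℓ (ρ ℓ) (J ℓ) S P q)
    (ℓ₀ : ℕ) [hℓ₀ : Fact ℓ₀.Prime] (hal : Allows κ N ℓ₀ (J ℓ₀))
    (hfull : ∀ X, SpLie (J ℓ₀) X → IsTangent ℓ₀ ((ρ ℓ₀).comp s) X)
    (ℓ : ℕ) [hℓ : Fact ℓ.Prime] (habs : AbsIrr ℓ ((ρ ℓ).comp s)) :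
    ∀ X, SpLie (J ℓ) X → IsTangent ℓ (ρ ℓ) X :=
  one_every hs hS ρ J hsys ℓ₀ hal hfull ℓ (ss_of_abs habs)
    (sc_of_abs hs hS ρ J hsys ℓ₀ hal hfull ℓ habs)

end

section
variable {K : Type} [Field K] [NumberField K] {ι : Type} [Fintype ι] [DecidableEq ι] {N : ι → ℕ}
  {S : Set (HeightOneSpectrum (𝓞 K))} {P : ι → HeightOneSpectrum (𝓞 K) → ℚ[X]}
  {q : ι → HeightOneSpectrum (𝓞 K) → ℚ}
  {Γ : Type} [Group Γ] [TopologicalSpace Γ] [IsTopologicalGroup Γ] [CompactSpace Γ]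
  {s : GK K →* Γ} {κ : ι → Kind}

/-- the system restricted to the Galois group -/
theorem sys_comp {κ : Kind} {N ℓ : ℕ} [Fact ℓ.Prime] {ρ : Γ →* Matrix (Fin N) (Fin N) ℚ_[ℓ]}
    {J : Matrix (Fin N) (Fin N) ℚ_[ℓ]} {P : HeightOneSpectrum (𝓞 K) → ℚ[X]}
    {q : HeightOneSpectrum (𝓞 K) → ℚ} (hs : Continuous s) (h : Sys s κ N ℓ ρ J S P q) :
    Sys (MonoidHom.id (GK K)) κ N ℓ (ρ.comp s) J S P q :=
  ⟨h.1.comp hs, h.2.1, h.2.2.1, fun γ => h.2.2.2.1 (s γ), fun v hv hvℓ σ hσ =>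
    h.2.2.2.2 v hv hvℓ σ hσ⟩

/-- **several systems: from one prime number to every prime number at which all representations are
absolutely irreducible** -/
theorem several_abs (hs : Continuous s) (hS : S.Finite)
    (ρ : ∀ (i : ι) (ℓ : ℕ) [Fact ℓ.Prime], Γ →* Matrix (Fin (N i)) (Fin (N i)) ℚ_[ℓ])
    (J : ∀ (i : ι) (ℓ : ℕ) [Fact ℓ.Prime], Matrix (Fin (N i)) (Fin (N i)) ℚ_[ℓ])
    (hsys : ∀ (i : ι) (ℓ : ℕ) [Fact ℓ.Prime], Sys s (κ i) (N i) ℓ (ρ i ℓ) (J i ℓ) S (P i) (q i))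
    (ℓ₀ : ℕ) [hℓ₀ : Fact ℓ₀.Prime] (hal : ∀ i, Allows (κ i) (N i) ℓ₀ (J i ℓ₀))
    (hfull : ∀ X, (∀ i, SpLie (J i ℓ₀) (X i)) → JTan ℓ₀ (fun i => (ρ i ℓ₀).comp s) X)
    (ℓ : ℕ) [hℓ : Fact ℓ.Prime] (habs : ∀ i, AbsIrr ℓ ((ρ i ℓ).comp s)) :
    ∀ X, (∀ i, SpLie (J i ℓ) (X i)) → JTan ℓ (fun i => (ρ i ℓ).comp s) X := by
  have hone : ∀ i X, SpLie (J i ℓ₀) X → IsTangent ℓ₀ ((ρ i ℓ₀).comp s) X :=
    fun i X hX => one_of_joint hfull i X hX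
  refine (several (s := MonoidHom.id (GK K)) tasks continuous_id hS (fun i ℓ _ => (ρ i ℓ).comp s) J
    (fun i ℓ _ => sys_comp hs (hsys i ℓ)) ℓ₀ hal hfull).2 ℓ ?_ ?_
  · exact fun i => ss_of_abs (s := MonoidHom.id (GK K)) (habs i)
  · exact fun i => sc_of_abs (s := MonoidHom.id (GK K)) continuous_id hS
      (fun ℓ _ => (ρ i ℓ).comp s) (fun ℓ _ => J i ℓ) (fun ℓ _ => sys_comp hs (hsys i ℓ)) ℓ₀ (hal i)
      (hone i) ℓ (habs i)

end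

end Pool.Agent.U273.AI
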