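import Pool.Agent.R932.EV.Ss
import Pool.Agent.U273.AI.Eig

/-!
# Schur: semisimple representations with scalar commutant are absolutely irreducible
-/

set_option autoImplicit false
set_option linter.unusedSectionVars false
set_option linter.style.haveILetI false

open Matrix Polynomial
open Pool.Agent.R932.EV

namespace Pool.Agent.U273.AI

section
variable {F L : Type} [Field F] [Field L] [Algebra F L] {N : ℕ} {G : Type} [Group G]

/-- semisimple with scalar commutant implies irreducible -/
theorem irr_of_ss {ρ : G →* Matrix (Fin N) (Fin N) F} (hss : SS ρ)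
    (hsc : ∀ A : Matrix (Fin N) (Fin N) F, (∀ g, A * ρ g = ρ g * A) →
      ∃ c : F, A = c • (1 : Matrix (Fin N) (Fin N) F)) : Irr ρ := by
  intro W hW
  by_cases hne : W = ⊥
  · exact Or.inl hne
  right
  obtain ⟨C, hWC, hC⟩ := hss W hW
  set p : (Fin N → F) →ₗ[F] (Fin N → F) := W.subtype ∘ₗ W.projectionOnto C hWC with hp
  have hin : ∀ x, p x ∈ W := fun x => (W.projectionOnto C hWC x).2
  have hfix : ∀ x ∈ W, p x = x := by
    intro x hx
    have h := W.projectionOnto_apply_left hWC ⟨x, hx⟩
    exact congrArg Subtype.val h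
  have hzero : ∀ x ∈ C, p x = 0 := by
    intro x hx
    have h := (W.projectionOnto_apply_eq_zero_iff hWC (x := x)).2 hx
    rw [hp, LinearMap.comp_apply, h, map_zero]
  have hcomm : ∀ σ, ∀ x, p (ρ σ *ᵥ x) = ρ σ *ᵥ p x := by
    intro σ x
    have hx : x ∈ W ⊔ C := by rw [hWC.sup_eq_top]; trivial
    obtain ⟨a, ha, b, hb, rfl⟩ := Submodule.mem_sup.1 hx
    rw [mulVec_add, map_add, map_add, hfix a ha, hzero b hb, hfix _ (hW σ a ha),
      hzero _ (hC σ b hb), add_zero, add_zero]
  obtain ⟨c, hc⟩ := hsc (LinearMap.toMatrix' p) (by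
    intro σ
    apply Matrix.toLin'.injective
    rw [toLin'_mul, toLin'_mul, toLin'_toMatrix']
    refine LinearMap.ext fun x => ?_
    show p (toLin' (ρ σ) x) = toLin' (ρ σ) (p x)
    rw [toLin'_apply, toLin'_apply]
    exact hcomm σ x)
  have hpc : ∀ x, p x = c • x := by
    intro x
    have h1 : toLin' (LinearMap.toMatrix' p) x = p x := by rw [toLin'_toMatrix']
    rw [← h1, hc, toLin'_apply, smul_mulVec, one_mulVec]
  obtain ⟨w, hw, hw0⟩ := Submodule.exists_mem_ne_zero_of_ne_bot hne
  have hc1 : c = 1 := by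
    have h1 := (hpc w).symm.trans (hfix w hw)
    have h2 : (c - 1) • w = 0 := by rw [sub_smul, one_smul, h1, sub_self]
    rcases smul_eq_zero.1 h2 with h3 | h3
    · exact sub_eq_zero.1 h3
    · exact absurd h3 hw0
  rw [eq_top_iff]
  intro x _
  have h1 := hpc x
  rw [hc1, one_smul] at h1
  rw [← h1]
  exact hin x

/-- subspaces stable under all elementary matrices -/
theorem bot_or_top_of_single {W : Submodule L (Fin N → L)}
    (h : ∀ i j, ∀ w ∈ W, Matrix.single i j (1 : L) *ᵥ w ∈ W) : W = ⊥ ∨ W = ⊤ := by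
  classical
  by_cases hne : W = ⊥
  · exact Or.inl hne
  right
  obtain ⟨w, hw, hw0⟩ := Submodule.exists_mem_ne_zero_of_ne_bot hne
  obtain ⟨j, hj⟩ : ∃ j, w j ≠ 0 := by
    by_contra hcon
    push Not at hcon
    exact hw0 (funext hcon)
  have h1 : ∀ i, (Pi.single i 1 : Fin N → L) ∈ W := by
    intro i
    have h2 := h i j w hw
    have h3 : Matrix.single i j (1 : L) *ᵥ w = w j • Pi.single i 1 := by
      ext k
      rw [Matrix.single_mulVec, Pi.smul_apply, smul_eq_mul, one_mul]
      by_cases hk : k = i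
      · subst hk
        simp
      · simp [Pi.single_eq_of_ne hk, Function.update_of_ne hk]
    rw [h3] at h2
    have h4 := W.smul_mem (w j)⁻¹ h2
    rwa [smul_smul, inv_mul_cancel₀ hj, one_smul] at h4
  rw [eq_top_iff]
  intro x _
  have h2 : x = ∑ i, x i • (Pi.single i 1 : Fin N → L) := by
    conv_lhs => rw [← Finset.univ_sum_single x]
    refine Finset.sum_congr rfl fun i _ => ?_
    rw [← Pi.single_smul, smul_eq_mul, mul_one]
  rw [h2]
  exact Submodule.sum_mem _ fun i _ => W.smul_mem _ (h1 i)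

/-- **semisimple with scalar commutant implies absolutely irreducible** -/
theorem abs_of_ss {ρ : G →* Matrix (Fin N) (Fin N) F} (hss : SS ρ)
    (hsc : ∀ A : Matrix (Fin N) (Fin N) F, (∀ g, A * ρ g = ρ g * A) →
      ∃ c : F, A = c • (1 : Matrix (Fin N) (Fin N) F)) :
    Irr ((RingHom.mapMatrix (algebraMap F L)).toMonoidHom.comp ρ) := by
  classical
  intro W hW
  rcases Nat.eq_zero_or_pos N with hN | hN
  · subst hN
    left
    rw [Submodule.eq_bot_iff]
    intro w _
    exact Subsingleton.elim _ _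
  haveI : Nonempty (Fin N) := ⟨⟨0, hN⟩⟩
  have hirr := irr_of_ss hss hsc
  -- the algebra of the matrices which preserve `W`
  let 𝒜 : Subalgebra F (Matrix (Fin N) (Fin N) F) :=
    { carrier := {A | ∀ w ∈ W, A.map (algebraMap F L) *ᵥ w ∈ W}
      mul_mem' := by
        intro A B hA hB w hw
        rw [Matrix.map_mul, ← mulVec_mulVec]
        exact hA _ (hB w hw)
      add_mem' := by
        intro A B hA hB w hw
        rw [Matrix.map_add (algebraMap F L) (map_add _), add_mulVec]
        exact W.add_mem (hA w hw) (hB w hw)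
      algebraMap_mem' := by
        intro c w hw
        have h1 : ((algebraMap F (Matrix (Fin N) (Fin N) F)) c).map (algebraMap F L) =
            (algebraMap F L c) • (1 : Matrix (Fin N) (Fin N) L) := by
          rw [Algebra.algebraMap_eq_smul_one]
          ext i j
          rw [Matrix.map_apply, Matrix.smul_apply, Matrix.smul_apply, smul_eq_mul, smul_eq_mul,
            map_mul, Matrix.one_apply, Matrix.one_apply]
          split_ifs <;> simp
        rw [h1, smul_mulVec, one_mulVec]
        exact W.smul_mem _ hw }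
  have hρ : ∀ g, ρ g ∈ 𝒜 := fun g w hw => hW g w hw
  let S : Subalgebra F (Module.End F (Fin N → F)) :=
    𝒜.map (Matrix.toLinAlgEquiv' : Matrix (Fin N) (Fin N) F ≃ₐ[F] _).toAlgHom
  have hmem : ∀ X ∈ 𝒜, Matrix.toLin' X ∈ S := fun X hX => ⟨X, hX, rfl⟩
  have hS := Pool.Agent.Y758.ZD.burnside S (fun W' hW' => by
    refine hirr W' fun g w hw => ?_
    have := hW' _ (hmem _ (hρ g)) w hw
    rwa [Matrix.toLin'_apply] at this) (fun d hd => by
    obtain ⟨D, rfl⟩ : ∃ D : Matrix (Fin N) (Fin N) F, Matrix.toLin' D = d :=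
      ⟨LinearMap.toMatrix' d, Matrix.toLin'_toMatrix' d⟩
    obtain ⟨c, hc⟩ := hsc D fun g => by
      have h1 := hd _ (hmem _ (hρ g))
      rw [Module.End.mul_eq_comp, Module.End.mul_eq_comp, ← Matrix.toLin'_mul,
        ← Matrix.toLin'_mul] at h1
      exact Matrix.toLin'.injective h1
    refine ⟨c, fun v => ?_⟩
    rw [hc, toLin'_apply, smul_mulVec, one_mulVec])
  have htop : ∀ A : Matrix (Fin N) (Fin N) F, A ∈ 𝒜 := by
    intro X
    have h1 : Matrix.toLin' X ∈ S := by rw [hS]; trivial
    obtain ⟨Y, hY, hXY⟩ := h1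
    have h2 : Y = X := Matrix.toLin'.injective hXY
    rw [← h2]
    exact hY
  refine bot_or_top_of_single fun i j w hw => ?_
  have h1 := htop (Matrix.single i j 1) w hw
  rwa [Matrix.map_single (α := F) (β := L) i j 1 (algebraMap F L), map_one] at h1

/-- Schur's lemma -/
theorem scalar_of_irr [IsAlgClosed L] {R : G →* Matrix (Fin N) (Fin N) L} (h : Irr R)
    {A : Matrix (Fin N) (Fin N) L} (hA : ∀ g, A * R g = R g * A) :
    ∃ c : L, A = c • (1 : Matrix (Fin N) (Fin N) L) := by
  classical
  rcases Nat.eq_zero_or_pos N with hN | hN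
  · subst hN
    exact ⟨0, Subsingleton.elim _ _⟩
  haveI : Nonempty (Fin N) := ⟨⟨0, hN⟩⟩
  obtain ⟨c, hc⟩ := IsAlgClosed.exists_root A.charpoly (by
    rw [Matrix.charpoly_degree_eq_dim, Fintype.card_fin]
    exact_mod_cast hN.ne')
  rw [Polynomial.IsRoot.def, Matrix.eval_charpoly] at hc
  obtain ⟨v, hv0, hv⟩ := Matrix.exists_mulVec_eq_zero_iff.2 hc
  have hv' : A *ᵥ v = c • v := by
    rw [sub_mulVec, sub_eq_zero] at hv
    rw [← hv, Matrix.scalar_apply, ← Matrix.smul_one_eq_diagonal, smul_mulVec, one_mulVec]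
  let W : Submodule L (Fin N → L) :=
    { carrier := {w | A *ᵥ w = c • w}
      add_mem' := by
        intro a b ha hb
        show A *ᵥ (a + b) = c • (a + b)
        rw [mulVec_add, smul_add, show A *ᵥ a = c • a from ha, show A *ᵥ b = c • b from hb]
      zero_mem' := by
        show A *ᵥ 0 = c • 0
        rw [mulVec_zero, smul_zero]
      smul_mem' := by
        intro t a ha
        show A *ᵥ (t • a) = c • (t • a)
        rw [mulVec_smul, show A *ᵥ a = c • a from ha, smul_comm] }
  rcases h W (fun g w hw => by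
    show A *ᵥ (R g *ᵥ w) = c • (R g *ᵥ w)
    rw [mulVec_mulVec, hA, ← mulVec_mulVec, show A *ᵥ w = c • w from hw, mulVec_smul]) with h1 | h1
  · exfalso
    apply hv0
    have h2 : v ∈ W := hv'
    rwa [h1, Submodule.mem_bot] at h2
  · refine ⟨c, ?_⟩
    apply toLin'.injective
    refine LinearMap.ext fun w => ?_
    have h2 : w ∈ W := by rw [h1]; trivial
    rw [toLin'_apply, toLin'_apply, smul_mulVec, one_mulVec]
    exact h2

/-- the commutant of an absolutely irreducible representation -/
theorem scalar_of_abs [IsAlgClosed L] {ρ : G →* Matrix (Fin N) (Fin N) F}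
    (h : Irr ((RingHom.mapMatrix (algebraMap F L)).toMonoidHom.comp ρ))
    {A : Matrix (Fin N) (Fin N) F} (hA : ∀ g, A * ρ g = ρ g * A) :
    ∃ c : F, A = c • (1 : Matrix (Fin N) (Fin N) F) := by
  obtain ⟨c, hc⟩ := scalar_of_irr h (A := A.map (algebraMap F L)) (by
    intro g
    show A.map (algebraMap F L) * (ρ g).map (algebraMap F L) =
      (ρ g).map (algebraMap F L) * A.map (algebraMap F L)
    rw [← Matrix.map_mul, hA g, Matrix.map_mul])
  exact scalar_of_map hc

end

end Pool.Agent.U273.AI
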