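import Pool.Agent.R932.PO.All

/-!
# Tangent vectors of a twist by a character
-/

set_option autoImplicit false
set_option linter.unusedSectionVars false
set_option linter.style.haveILetI false

open Matrix Polynomial Filter Topology
open Pool.Agent.Y142.ZO Pool.Agent.Y142.ZS
open Pool.Agent.R932.PO (JTan IsForm)

namespace Pool.Agent.U273.AI

section tw
variable {ℓ : ℕ} [hℓ : Fact ℓ.Prime] {N : ℕ} {G : Type} [Group G]

/-- the twist of a representation by a power of a character -/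
noncomputable def twist (ρ : G →* Matrix (Fin N) (Fin N) ℚ_[ℓ]) (κ : G →* ℚ_[ℓ]) (c : ℕ) :
    G →* Matrix (Fin N) (Fin N) ℚ_[ℓ] where
  toFun g := κ g ^ c • ρ g
  map_one' := by rw [map_one, map_one, one_pow, one_smul]
  map_mul' a b := by
    rw [map_mul, map_mul, mul_pow, smul_mul_assoc, mul_smul_comm, smul_smul]

theorem twist_apply (ρ : G →* Matrix (Fin N) (Fin N) ℚ_[ℓ]) (κ : G →* ℚ_[ℓ]) (c : ℕ) (g : G) :
    twist ρ κ c g = κ g ^ c • ρ g := rfl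

/-- the dimensions -/
def NB (N : ℕ) : Bool → ℕ
  | true => N
  | false => 1

/-- the representation and the character -/
noncomputable def rB (ρ : G →* Matrix (Fin N) (Fin N) ℚ_[ℓ]) (κ : G →* ℚ_[ℓ]) :
    ∀ b : Bool, G →* Matrix (Fin (NB N b)) (Fin (NB N b)) ℚ_[ℓ]
  | true => ρ
  | false =>
    { toFun := fun g => κ g • (1 : Matrix (Fin 1) (Fin 1) ℚ_[ℓ])
      map_one' := by rw [map_one, one_smul]; rfl
      map_mul' := fun a b => by
        show κ (a * b) • (1 : Matrix (Fin 1) (Fin 1) ℚ_[ℓ]) =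
          (κ a • (1 : Matrix (Fin 1) (Fin 1) ℚ_[ℓ])) * (κ b • (1 : Matrix (Fin 1) (Fin 1) ℚ_[ℓ]))
        rw [map_mul, smul_mul_assoc, one_mul, smul_smul] }

/-- tangent vectors on which the character is trivial -/
theorem tangent_twist {ρ : G →* Matrix (Fin N) (Fin N) ℚ_[ℓ]} {κ : G →* ℚ_[ℓ]} (c : ℕ)
    {X : Matrix (Fin N) (Fin N) ℚ_[ℓ]} {σ : ℕ → G}
    (h1 : Tendsto (fun n : ℕ => ((ℓ : ℚ_[ℓ]) ^ n)⁻¹ • (ρ (σ n) - 1)) atTop (𝓝 X))
    (h2 : Tendsto (fun n : ℕ => ((ℓ : ℚ_[ℓ]) ^ n)⁻¹ * (κ (σ n) - 1)) atTop (𝓝 0)) :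
    IsTangent ℓ (twist ρ κ c) X := by
  refine ⟨σ, ?_⟩
  have hℓ0 : (ℓ : ℚ_[ℓ]) ≠ 0 := by exact_mod_cast hℓ.out.ne_zero
  have h3 : Tendsto (fun n : ℕ => κ (σ n)) atTop (𝓝 1) := by
    have h4 : Tendsto (fun n : ℕ => (ℓ : ℚ_[ℓ]) ^ n) atTop (𝓝 0) := by
      refine tendsto_pow_atTop_nhds_zero_of_norm_lt_one ?_
      rw [Padic.norm_p]
      exact inv_lt_one_of_one_lt₀ (by exact_mod_cast hℓ.out.one_lt)
    have h5 := (h4.mul h2).add_const (1 : ℚ_[ℓ])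
    rw [zero_mul, zero_add] at h5
    refine h5.congr fun n => ?_
    rw [← mul_assoc, mul_inv_cancel₀ (pow_ne_zero n hℓ0), one_mul, sub_add_cancel]
  have h4 : Tendsto (fun n : ℕ => ((ℓ : ℚ_[ℓ]) ^ n)⁻¹ * (κ (σ n) ^ c - 1)) atTop (𝓝 0) := by
    have h5 : Tendsto (fun n : ℕ => (∑ i ∈ Finset.range c, κ (σ n) ^ i) *
        (((ℓ : ℚ_[ℓ]) ^ n)⁻¹ * (κ (σ n) - 1))) atTop
        (𝓝 ((∑ i ∈ Finset.range c, (1 : ℚ_[ℓ]) ^ i) * 0)) :=
      Tendsto.mul (tendsto_finsetSum _ fun i _ => h3.pow i) h2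
    rw [mul_zero] at h5
    refine h5.congr fun n => ?_
    have h6 := geom_sum_mul (κ (σ n)) c
    calc (∑ i ∈ Finset.range c, κ (σ n) ^ i) * (((ℓ : ℚ_[ℓ]) ^ n)⁻¹ * (κ (σ n) - 1)) =
        ((ℓ : ℚ_[ℓ]) ^ n)⁻¹ * ((∑ i ∈ Finset.range c, κ (σ n) ^ i) * (κ (σ n) - 1)) := by ring
      _ = _ := by rw [h6]
  have h5 : Tendsto (fun n : ℕ => κ (σ n) ^ c • (((ℓ : ℚ_[ℓ]) ^ n)⁻¹ • (ρ (σ n) - 1)) +
      (((ℓ : ℚ_[ℓ]) ^ n)⁻¹ * (κ (σ n) ^ c - 1)) • (1 : Matrix (Fin N) (Fin N) ℚ_[ℓ])) atTop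
      (𝓝 ((1 : ℚ_[ℓ]) ^ c • X + (0 : ℚ_[ℓ]) • 1)) :=
    ((h3.pow c).smul h1).add (h4.smul_const _)
  rw [one_pow, one_smul, zero_smul, add_zero] at h5
  refine h5.congr fun n => ?_
  rw [twist_apply, smul_sub, smul_sub, smul_sub]
  simp only [smul_smul]
  rw [mul_sub, sub_smul, mul_one, mul_comm (((ℓ : ℚ_[ℓ]) ^ n)⁻¹) (κ (σ n) ^ c)]
  abel

variable [TopologicalSpace G] [IsTopologicalGroup G] [CompactSpace G]

/-- **the Lie algebra of the image of a twist contains the Lie algebra of the form** -/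
theorem full_twist {ρ : G →* Matrix (Fin N) (Fin N) ℚ_[ℓ]} (hρ : Continuous ρ) {κ : G →* ℚ_[ℓ]}
    (hκ : Continuous κ) {J : Matrix (Fin N) (Fin N) ℚ_[ℓ]} (hJ : IsForm J) (hN : 0 < N)
    (hfull : ∀ X, SpLie J X → IsTangent ℓ ρ X) (c : ℕ) :
    ∀ X, SpLie J X → IsTangent ℓ (twist ρ κ c) X := by
  have hcont : ∀ b, Continuous (rB ρ κ b) := by
    intro b
    cases b with
    | true => exact hρ
    | false => exact hκ.smul continuous_const
  obtain ⟨𝔤, h𝔤, hbr, -⟩ := R932.PO.jlie ℓ Bool (NB N) G (rB ρ κ)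
  -- the elements with trivial second component
  let X0 : Matrix (Fin N) (Fin N) ℚ_[ℓ] → ∀ b, Matrix (Fin (NB N b)) (Fin (NB N b)) ℚ_[ℓ] :=
    fun X b => match b with
      | true => X
      | false => 0
  have hX0 : ∀ (a b : Matrix (Fin N) (Fin N) ℚ_[ℓ]), X0 (a + b) = X0 a + X0 b := by
    intro a b
    funext i
    cases i with
    | true => rfl
    | false =>
      show (0 : Matrix (Fin 1) (Fin 1) ℚ_[ℓ]) = 0 + (0 : Matrix (Fin 1) (Fin 1) ℚ_[ℓ])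
      rw [add_zero]
  have hX1 : ∀ (t : ℚ_[ℓ]) (a : Matrix (Fin N) (Fin N) ℚ_[ℓ]), X0 (t • a) = t • X0 a := by
    intro t a
    funext i
    cases i with
    | true => rfl
    | false =>
      show (0 : Matrix (Fin 1) (Fin 1) ℚ_[ℓ]) = t • (0 : Matrix (Fin 1) (Fin 1) ℚ_[ℓ])
      rw [smul_zero]
  let I : Submodule ℚ_[ℓ] (Matrix (Fin N) (Fin N) ℚ_[ℓ]) :=
    { carrier := {X | X0 X ∈ 𝔤}
      add_mem' := by
        intro a b ha hb
        show X0 (a + b) ∈ 𝔤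
        rw [hX0]
        exact 𝔤.add_mem ha hb
      zero_mem' := by
        show X0 0 ∈ 𝔤
        have h1 := hX1 0 0
        rw [zero_smul, zero_smul] at h1
        rw [h1]
        exact 𝔤.zero_mem
      smul_mem' := by
        intro t a ha
        show X0 (t • a) ∈ 𝔤
        rw [hX1]
        exact 𝔤.smul_mem t ha }
  have hbr1 : ∀ X ∈ 𝔤, ∀ Y ∈ 𝔤, X true * Y true - Y true * X true ∈ I := by
    intro X hX Y hY
    show X0 (X true * Y true - Y true * X true) ∈ 𝔤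
    have h1 := hbr X hX Y hY
    have h2 : X0 (X true * Y true - Y true * X true) = fun i => X i * Y i - Y i * X i := by
      funext i
      cases i with
      | true => rfl
      | false =>
        show (0 : Matrix (Fin 1) (Fin 1) ℚ_[ℓ]) = X false * Y false - Y false * X false
        have h3 : ∀ A B : Matrix (Fin 1) (Fin 1) ℚ_[ℓ], (0 : Matrix (Fin 1) (Fin 1) ℚ_[ℓ]) =
            A * B - B * A := by
          intro A B
          ext i j
          rw [Matrix.sub_apply, Matrix.mul_apply, Matrix.mul_apply, Fin.sum_univ_one,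
            Fin.sum_univ_one, Subsingleton.elim i 0, Subsingleton.elim j 0, mul_comm,
            sub_self, Matrix.zero_apply]
        exact h3 _ _
    rw [h2]
    exact h1
  have hlift : ∀ X, SpLie J X → ∃ Y ∈ 𝔤, Y true = X := by
    intro X hX
    obtain ⟨Y, hY, hYt⟩ := R932.PO.jlift ℓ Bool (NB N) G (rB ρ κ) hcont true X (hfull X hX)
    exact ⟨Y, (h𝔤 Y).2 hY, hYt⟩
  obtain ⟨Y, Y', hY, hY', hYY⟩ := R932.PO.pos_noncomm (K := ℚ_[ℓ]) hJ hN
  obtain ⟨Z, hZ, hZt⟩ := hlift Y hY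
  obtain ⟨Z', hZ', hZt'⟩ := hlift Y' hY'
  have h1 := hbr1 Z hZ Z' hZ'
  rw [hZt, hZt'] at h1
  have h2 : SpLie J (Y * Y' - Y' * Y) := R932.PO.spLie_bracket (R932.PO.spLie_zero_iff.1 hY)
    (R932.PO.spLie_zero_iff.1 hY')
  intro X hX
  have h3 : X ∈ I := R932.PO.form_ideal hJ I (fun A hA B hB => by
    obtain ⟨A', hA', hAt⟩ := hlift A hA
    have h4 := hbr1 A' hA' (X0 B) hB
    rw [hAt] at h4
    exact h4) h1 h2 hYY hX
  obtain ⟨σ, hσ⟩ := (h𝔤 _).1 h3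
  refine tangent_twist c (σ := σ) (hσ true) ?_
  have h5 := hσ false
  have h6 : Tendsto (fun n : ℕ => (((ℓ : ℚ_[ℓ]) ^ n)⁻¹ •
      (κ (σ n) • (1 : Matrix (Fin 1) (Fin 1) ℚ_[ℓ]) - 1)) 0 0) atTop (𝓝 0) := by
    have h7 : Continuous fun A : Matrix (Fin 1) (Fin 1) ℚ_[ℓ] => A 0 0 :=
      (continuous_apply 0).comp (continuous_apply 0)
    exact (h7.tendsto _).comp h5
  refine h6.congr fun n => ?_
  rw [Matrix.smul_apply, Matrix.sub_apply, Matrix.smul_apply, Matrix.one_apply_eq, smul_eq_mul,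
    smul_eq_mul, mul_one]

end tw

end Pool.Agent.U273.AI
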