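import Pool.Agent.R932.SQ.Main
import Pool.Agent.U273.AI.Main
import Pool.Agent.U273.AI.Sch
import Pool.Agent.U273.AI.Twist
import Pool.Agent.U273.AI.Int

/-!
# Systems over the rational numbers: full Lie algebra at every prime number at which the commutant
is scalar
-/

set_option autoImplicit false
set_option linter.unusedSectionVars false
set_option linter.style.haveILetI false

open Matrix Polynomial Filter Topology NumberField IsDedekindDomain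
open Pool.Agent.Y142.ZO Pool.Agent.Y142.ZI Pool.Agent.Y142.ZS
open Pool.Agent.R932.OP Pool.Agent.R932.PO Pool.Agent.R932.EV

namespace Pool.Agent.U273.AI

section
variable {K : Type} [Field K] [NumberField K] {N : ℕ} {S : Set (HeightOneSpectrum (𝓞 K))}
  {P : HeightOneSpectrum (𝓞 K) → ℚ[X]} {q : HeightOneSpectrum (𝓞 K) → ℚ}
  {Γ : Type} [Group Γ] [TopologicalSpace Γ] [IsTopologicalGroup Γ] [CompactSpace Γ]
  {s : GK K →* Γ} {κ : Kind}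

/-- a prime number which does not belong to a given prime ideal -/
theorem exists_prime_not_mem (v : HeightOneSpectrum (𝓞 K)) :
    ∃ ℓ : ℕ, ∃ _ : Fact ℓ.Prime, (ℓ : 𝓞 K) ∉ v.asIdeal := by
  by_cases h2 : ((2 : ℕ) : 𝓞 K) ∈ v.asIdeal
  · refine ⟨3, ⟨Nat.prime_three⟩, fun h3 => ?_⟩
    apply v.isPrime.ne_top
    rw [Ideal.eq_top_iff_one]
    have h4 := v.asIdeal.sub_mem h3 h2
    have h5 : ((3 : ℕ) : 𝓞 K) - ((2 : ℕ) : 𝓞 K) = 1 := by push_cast; ring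
    rwa [h5] at h4
  · exact ⟨2, ⟨Nat.prime_two⟩, h2⟩

theorem monic_of_sys {ρ : ∀ (ℓ : ℕ) [Fact ℓ.Prime], Γ →* Matrix (Fin N) (Fin N) ℚ_[ℓ]}
    {J : ∀ (ℓ : ℕ) [Fact ℓ.Prime], Matrix (Fin N) (Fin N) ℚ_[ℓ]}
    (hsys : ∀ (ℓ : ℕ) [Fact ℓ.Prime], Sys s κ N ℓ (ρ ℓ) (J ℓ) S P q)
    {v : HeightOneSpectrum (𝓞 K)} (hv : v ∉ S) : (P v).Monic := by
  obtain ⟨ℓ, hℓ, hvℓ⟩ := exists_prime_not_mem v
  obtain ⟨σ, hσ⟩ := Pool.Agent.W401.Frob.exists_frob v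
  have h1 := ((hsys ℓ).2.2.2.2 v hv hvℓ σ hσ).1
  have h2 : ((P v).map (algebraMap ℚ ℚ_[ℓ])).Monic := by
    rw [← h1]
    exact charpoly_monic _
  exact (Polynomial.monic_map_iff (f := algebraMap ℚ ℚ_[ℓ])).1 h2

/-- **semisimplicity at every prime number, over the rational numbers** -/
theorem ss_every (hK : Module.finrank ℚ K = 1) (hs : Continuous s) (hS : S.Finite)
    (ρ : ∀ (ℓ : ℕ) [Fact ℓ.Prime], Γ →* Matrix (Fin N) (Fin N) ℚ_[ℓ])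
    (J : ∀ (ℓ : ℕ) [Fact ℓ.Prime], Matrix (Fin N) (Fin N) ℚ_[ℓ])
    (hsys : ∀ (ℓ : ℕ) [Fact ℓ.Prime], Sys s κ N ℓ (ρ ℓ) (J ℓ) S P q)
    (χ : ∀ (ℓ : ℕ) [Fact ℓ.Prime], Γ →* ℚ_[ℓ]) (hχc : ∀ (ℓ : ℕ) [Fact ℓ.Prime], Continuous (χ ℓ))
    {w c : ℕ} (hwc : 0 < w + 2 * c)
    (hmult : ∀ (ℓ : ℕ) [Fact ℓ.Prime] (g : Γ), (ρ ℓ g)ᵀ * J ℓ * ρ ℓ g = (χ ℓ g ^ w) • J ℓ)
    (hχ : ∀ (ℓ : ℕ) [Fact ℓ.Prime], ∀ v ∉ S, (ℓ : 𝓞 K) ∉ v.asIdeal → ∀ σ : GK K,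
      IsFrobenius v σ → χ ℓ (s σ⁻¹) = (Ideal.absNorm v.asIdeal : ℚ_[ℓ]))
    (hP : ∀ v ∉ S, ∀ z : ℂ, aeval z (P v) = 0 → ‖z‖ ^ 2 = (Ideal.absNorm v.asIdeal : ℝ) ^ w ∧
      IsIntegral ℤ ((Ideal.absNorm v.asIdeal : ℂ) ^ c * z))
    (ℓ₀ : ℕ) [hℓ₀ : Fact ℓ₀.Prime]
    (hfull : ∀ X, SpLie (J ℓ₀) X → IsTangent ℓ₀ ((ρ ℓ₀).comp s) X)
    (ℓ : ℕ) [hℓ : Fact ℓ.Prime] : SS (ρ ℓ) := by
  have hN0 : ∀ v : HeightOneSpectrum (𝓞 K), (Ideal.absNorm v.asIdeal : ℚ) ≠ 0 := by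
    intro v
    have h1 : Ideal.absNorm v.asIdeal ≠ 0 := by
      rw [Ne, Ideal.absNorm_eq_zero_iff]
      exact v.ne_bot
    exact_mod_cast h1
  have hex : ∀ v : HeightOneSpectrum (𝓞 K), v ∉ S → ∃ Q : ℤ[X], Q.Monic ∧
      Q.map (algebraMap ℤ ℚ) = (P v).scaleRoots ((Ideal.absNorm v.asIdeal : ℚ) ^ c) ∧
      ∀ z : ℂ, aeval z Q = 0 → ‖z‖ ^ 2 = (Ideal.absNorm v.asIdeal : ℝ) ^ (w + 2 * c) := by
    intro v hv
    have ht : (Ideal.absNorm v.asIdeal : ℚ) ^ c ≠ 0 := pow_ne_zero _ (hN0 v)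
    obtain ⟨Q, hQ, hQP, hQr⟩ := exists_scaled (monic_of_sys hsys hv) ht (fun z hz => by
      have h1 := (hP v hv z hz).2
      rw [Rat.cast_pow, Rat.cast_natCast]
      exact h1)
    refine ⟨Q, hQ, hQP, fun z hz => ?_⟩
    have h1 := (hP v hv _ (hQr z hz)).1
    rw [Rat.cast_pow, Rat.cast_natCast, norm_div, norm_pow, Complex.norm_natCast, div_pow] at h1
    have h2 : (Ideal.absNorm v.asIdeal : ℝ) ≠ 0 := by
      have := hN0 v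
      exact_mod_cast this
    have h3 : ((Ideal.absNorm v.asIdeal : ℝ) ^ c) ^ 2 ≠ 0 := pow_ne_zero _ (pow_ne_zero _ h2)
    rw [div_eq_iff h3] at h1
    rw [h1, ← pow_mul, ← pow_add, mul_comm c 2]
  choose! Q hQm hQP hQr using hex
  have hform : ∀ (ℓ : ℕ) [Fact ℓ.Prime], IsForm (J ℓ) := fun ℓ _ =>
    (hsys ℓ).2.1.isForm (hsys ℓ).2.2.1
  have hcontt : ∀ (ℓ : ℕ) [Fact ℓ.Prime], Continuous (twist (ρ ℓ) (χ ℓ) c) := fun ℓ _ =>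
    ((hχc ℓ).pow c).smul (hsys ℓ).1
  have hmain := fun U hU => Pool.Agent.R932.SQ.semisimple_full (K := K) hK s (N := N)
    (w := w + 2 * c) hwc hS Q (fun v hv => ⟨hQm v hv, hQr v hv⟩)
    (fun ℓ _ => twist (ρ ℓ) (χ ℓ) c)
    (fun ℓ _ => (hcontt ℓ).comp hs) J (fun ℓ _ => (hsys ℓ).2.1.symm) (fun ℓ _ => (hsys ℓ).2.2.1)
    (fun ℓ _ g => χ ℓ g ^ (w + 2 * c)) (fun ℓ _ g => by
      rw [twist_apply, transpose_smul, smul_mul_assoc, smul_mul_assoc, mul_smul_comm, hmult ℓ g,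
        smul_smul, smul_smul]
      congr 1
      ring)
    (fun ℓ _ v hv hvℓ σ hσ => by
      have h1 := hχ ℓ v hv hvℓ σ hσ
      constructor
      · have h2 := ((hsys ℓ).2.2.2.2 v hv hvℓ σ hσ).1
        have h3 : (Ideal.absNorm v.asIdeal : ℚ_[ℓ]) ^ c ≠ 0 := by
          refine pow_ne_zero _ ?_
          have h4 := hN0 v
          have h5 : Ideal.absNorm v.asIdeal ≠ 0 := by exact_mod_cast h4
          exact_mod_cast h5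
        rw [twist_apply, h1, charpoly_scale _ h3, h2]
        have h4 := congrArg (Polynomial.map (algebraMap ℚ ℚ_[ℓ])) (hQP v hv)
        rw [Polynomial.map_map] at h4
        have h5 : (algebraMap ℚ ℚ_[ℓ]).comp (algebraMap ℤ ℚ) = algebraMap ℤ ℚ_[ℓ] :=
          Subsingleton.elim _ _
        rw [h5, map_scaleRoots _ _ _ (by
          rw [(monic_of_sys hsys hv).leadingCoeff, map_one]
          exact one_ne_zero), map_pow, map_natCast] at h4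
        rw [h4]
      · show χ ℓ (s σ⁻¹) ^ (w + 2 * c) = _
        rw [h1])
    ℓ₀ (fun X hX => full_twist (G := GK K) (ρ := (ρ ℓ₀).comp s) (κ := (χ ℓ₀).comp s)
      ((hsys ℓ₀).1.comp hs) ((hχc ℓ₀).comp hs) (hform ℓ₀) (hsys ℓ₀).2.1.pos hfull c X hX)
    ℓ U hU
  intro W hW
  obtain ⟨h1, h2⟩ := hmain W (fun g x hx => by
    show twist (ρ ℓ) (χ ℓ) c g *ᵥ x ∈ W
    rw [twist_apply, smul_mulVec]
    exact W.smul_mem _ (hW g x hx))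
  refine ⟨_, h1, fun g x hx => ?_⟩
  have h3 := h2 g x hx
  change twist (ρ ℓ) (χ ℓ) c g *ᵥ x ∈ _ at h3
  rw [twist_apply, smul_mulVec] at h3
  have h4 : χ ℓ g ^ c ≠ 0 := by
    refine pow_ne_zero _ fun h => ?_
    have h5 : χ ℓ g * χ ℓ g⁻¹ = 1 := by rw [← map_mul, mul_inv_cancel, map_one]
    rw [h, zero_mul] at h5
    exact zero_ne_one h5
  have h5 := Submodule.smul_mem _ (χ ℓ g ^ c)⁻¹ h3
  rwa [smul_smul, inv_mul_cancel₀ h4, one_smul] at h5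

/-- **the full Lie algebra at every prime number at which the commutant is scalar, over the
rational numbers** -/
theorem every_Q (hK : Module.finrank ℚ K = 1) (hs : Continuous s) (hS : S.Finite)
    (ρ : ∀ (ℓ : ℕ) [Fact ℓ.Prime], Γ →* Matrix (Fin N) (Fin N) ℚ_[ℓ])
    (J : ∀ (ℓ : ℕ) [Fact ℓ.Prime], Matrix (Fin N) (Fin N) ℚ_[ℓ])
    (hsys : ∀ (ℓ : ℕ) [Fact ℓ.Prime], Sys s κ N ℓ (ρ ℓ) (J ℓ) S P q)
    (χ : ∀ (ℓ : ℕ) [Fact ℓ.Prime], Γ →* ℚ_[ℓ]) (hχc : ∀ (ℓ : ℕ) [Fact ℓ.Prime], Continuous (χ ℓ))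
    {w c : ℕ} (hwc : 0 < w + 2 * c)
    (hmult : ∀ (ℓ : ℕ) [Fact ℓ.Prime] (g : Γ), (ρ ℓ g)ᵀ * J ℓ * ρ ℓ g = (χ ℓ g ^ w) • J ℓ)
    (hχ : ∀ (ℓ : ℕ) [Fact ℓ.Prime], ∀ v ∉ S, (ℓ : 𝓞 K) ∉ v.asIdeal → ∀ σ : GK K,
      IsFrobenius v σ → χ ℓ (s σ⁻¹) = (Ideal.absNorm v.asIdeal : ℚ_[ℓ]))
    (hP : ∀ v ∉ S, ∀ z : ℂ, aeval z (P v) = 0 → ‖z‖ ^ 2 = (Ideal.absNorm v.asIdeal : ℝ) ^ w ∧
      IsIntegral ℤ ((Ideal.absNorm v.asIdeal : ℂ) ^ c * z))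
    (ℓ₀ : ℕ) [hℓ₀ : Fact ℓ₀.Prime]
    (hfull : ∀ X, SpLie (J ℓ₀) X → IsTangent ℓ₀ ((ρ ℓ₀).comp s) X)
    (ℓ : ℕ) [hℓ : Fact ℓ.Prime]
    (hsc : ∀ A : Matrix (Fin N) (Fin N) ℚ_[ℓ], (∀ g, A * ρ ℓ (s g) = ρ ℓ (s g) * A) →
      ∃ t : ℚ_[ℓ], A = t • (1 : Matrix (Fin N) (Fin N) ℚ_[ℓ])) :
    AbsIrr ℓ ((ρ ℓ).comp s) := by
  have hss : SS ((ρ ℓ).comp s) := ss_every (s := MonoidHom.id (GK K)) hK continuous_id hS
    (fun ℓ _ => (ρ ℓ).comp s) J (fun ℓ _ => sys_comp hs (hsys ℓ))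
    (fun ℓ _ => (χ ℓ).comp s) (fun ℓ _ => (hχc ℓ).comp hs) hwc (fun ℓ _ g => hmult ℓ (s g))
    (fun ℓ _ v hv hvℓ σ hσ => hχ ℓ v hv hvℓ σ hσ) hP ℓ₀ hfull ℓ
  exact abs_of_ss (L := AlgebraicClosure ℚ_[ℓ]) hss hsc

end

end Pool.Agent.U273.AI
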