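import Pool.Agent.U273.AI.Full
import Pool.Agent.U273.AI.Q
import Pool.Agent.R932.GR.Art

/-!
# The motivic Tate conjecture, with an Artin motive: from one prime number to every prime number at which
the representations are absolutely irreducible
-/

set_option autoImplicit false
set_option linter.unusedSectionVars false
set_option linter.style.haveILetI false

open Matrix Filter Topology NumberField IsDedekindDomain
open Pool.Agent.Y142.ZO Pool.Agent.Y142.ZS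
open Pool.Agent.R932.PO (JTan IsForm Kind Fits Allows Sys JL det_map_ne one_of_joint several tasks)
open Pool.Agent.R932.EV (SS SC)
open Pool.Agent.R932.GR

namespace Pool.Agent.U273.AI

noncomputable section

section
variable {K : Type} [Field K] [NumberField K] {ι : Type} [Fintype ι] [DecidableEq ι] {N w : ι → ℕ}
  {m : ℕ} {Γ : Type} [Group Γ] [TopologicalSpace Γ] [IsTopologicalGroup Γ] [CompactSpace Γ]
  {S : Set (HeightOneSpectrum (𝓞 K))} {P : ι → HeightOneSpectrum (𝓞 K) → Polynomial ℚ}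
  {kd : ι → Kind} {s : GK K →* Γ}

/-- the hypotheses: a sum of motives with big groups and an Artin motive, the motivic Tate conjecture at
`ℓ₀` -/
structure Setup (s : GK K →* Γ) (S : Set (HeightOneSpectrum (𝓞 K))) (kd : ι → Kind) (w : ι → ℕ)
    (P : ι → HeightOneSpectrum (𝓞 K) → Polynomial ℚ)
    (J : ∀ i, Matrix (Fin (N i)) (Fin (N i)) ℚ) (α : Γ →* Matrix (Fin m) (Fin m) ℚ)
    (κ : ∀ (ℓ : ℕ) [Fact ℓ.Prime], Γ →* ℚ_[ℓ])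
    (ρ : ∀ (i : ι) (ℓ : ℕ) [Fact ℓ.Prime], Γ →* Matrix (Fin (N i)) (Fin (N i)) ℚ_[ℓ])
    (Pol : Set (Pa ℚ N m)) : Prop where
  hS : S.Finite
  hs : Continuous s
  hfit : ∀ i, Fits (kd i) (J i)
  hdet : ∀ i, (J i).det ≠ 0
  hw : ∀ i, (J i)ᵀ = J i → w i = 0
  hα : ∃ U : Subgroup Γ, IsOpen (U : Set Γ) ∧ ∀ σ ∈ U, α σ = 1
  hκ : ∀ (ℓ : ℕ) [Fact ℓ.Prime], ∀ v ∉ S, (ℓ : 𝓞 K) ∉ v.asIdeal → ∀ σ : GK K, IsFrobenius v σ →
      κ ℓ (s σ⁻¹) = (Ideal.absNorm v.asIdeal : ℚ_[ℓ])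
  hρc : ∀ (i : ι) (ℓ : ℕ) [Fact ℓ.Prime], Continuous (ρ i ℓ)
  hmult : ∀ (i : ι) (ℓ : ℕ) [Fact ℓ.Prime] (g : Γ),
      Sim (JL J ℓ i) (ρ i ℓ g) (κ ℓ g ^ w i)
  hfrob : ∀ (i : ι) (ℓ : ℕ) [Fact ℓ.Prime], ∀ v ∉ S, (ℓ : 𝓞 K) ∉ v.asIdeal → ∀ σ : GK K,
      IsFrobenius v σ → (ρ i ℓ (s σ⁻¹)).charpoly = (P i v).map (algebraMap ℚ ℚ_[ℓ])
  hpol : ∀ (x : ∀ i, Matrix (Fin (N i)) (Fin (N i)) ℂ) (a : Matrix (Fin m) (Fin m) ℂ),
      (∀ i, (x i).det ≠ 0) → a.det ≠ 0 → (∀ f ∈ Pol, vala f x a = 0) →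
      ∃ t : ℂ, t ≠ 0 ∧ ∀ i, Sim ((J i).map (algebraMap ℚ ℂ)) (x i) (t ^ w i)
  hbig : ∀ x : ∀ i, Matrix (Fin (N i)) (Fin (N i)) ℂ,
      (∀ i, (x i)ᵀ * (J i).map (algebraMap ℚ ℂ) * x i = (J i).map (algebraMap ℚ ℂ)) →
      (∀ i, (x i).det = 1) → ∀ f ∈ Pol, vala f x (1 : Matrix (Fin m) (Fin m) ℂ) = 0
  hgal : ∀ (ℓ : ℕ) [Fact ℓ.Prime] (σ : Γ), ∀ f ∈ Pol,
      vala f (fun i => ρ i ℓ σ) ((α σ).map (algebraMap ℚ ℚ_[ℓ])) = 0

variable {J : ∀ i, Matrix (Fin (N i)) (Fin (N i)) ℚ} {α : Γ →* Matrix (Fin m) (Fin m) ℚ}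
  {κ : ∀ (ℓ : ℕ) [Fact ℓ.Prime], Γ →* ℚ_[ℓ]}
  {ρ : ∀ (i : ι) (ℓ : ℕ) [Fact ℓ.Prime], Γ →* Matrix (Fin (N i)) (Fin (N i)) ℚ_[ℓ]}
  {Pol : Set (Pa ℚ N m)}

/-- the restriction of the data to the Galois group -/
theorem Setup.fibre (H : Setup s S kd w P J α κ ρ Pol) :
    Setup (MonoidHom.id (GK K)) S kd w P J (α.comp s) (fun ℓ _ => (κ ℓ).comp s)
      (fun i ℓ _ => (ρ i ℓ).comp s) Pol where
  hS := H.hS
  hs := continuous_id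
  hfit := H.hfit
  hdet := H.hdet
  hw := H.hw
  hα := by
    obtain ⟨U, hU, hUα⟩ := H.hα
    exact ⟨U.comap s, hU.preimage H.hs, fun σ hσ => hUα _ hσ⟩
  hκ := fun ℓ _ v hv hvℓ σ hσ => H.hκ ℓ v hv hvℓ σ hσ
  hρc := fun i ℓ _ => (H.hρc i ℓ).comp H.hs
  hmult := fun i ℓ _ g => H.hmult i ℓ (s g)
  hfrob := fun i ℓ _ v hv hvℓ σ hσ => H.hfrob i ℓ v hv hvℓ σ hσ
  hpol := H.hpol
  hbig := H.hbig
  hgal := fun ℓ _ σ f hf => H.hgal ℓ (s σ) f hf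

theorem Setup.sys (H : Setup s S kd w P J α κ ρ Pol) (i : ι) (ℓ : ℕ) [Fact ℓ.Prime] :
    Sys s (kd i) (N i) ℓ (ρ i ℓ) (JL J ℓ i) S (P i)
      (fun v => (Ideal.absNorm v.asIdeal : ℚ) ^ w i) := by
  have hfitL : Fits (kd i) (JL J ℓ i) := (H.hfit i).map (algebraMap ℚ ℚ_[ℓ])
  have hdetL : (JL J ℓ i).det ≠ 0 := det_map_ne (algebraMap ℚ ℚ_[ℓ]) (H.hdet i)
  have hsymL : (JL J ℓ i)ᵀ = JL J ℓ i → w i = 0 := by
    intro h
    refine H.hw i ?_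
    ext p q
    have h1 := congrFun (congrFun h p) q
    exact (algebraMap ℚ ℚ_[ℓ]).injective h1
  refine ⟨H.hρc i ℓ, hfitL, hdetL, fun γ => ⟨κ ℓ γ ^ w i, H.hmult i ℓ γ, fun h => ?_⟩, ?_⟩
  · rw [hsymL h, pow_zero]
  · intro v hv hvℓ σ hσ
    refine ⟨H.hfrob i ℓ v hv hvℓ σ hσ, ?_⟩
    have h1 : Sim (JL J ℓ i) (ρ i ℓ (s σ⁻¹)) (κ ℓ (s σ⁻¹) ^ w i) := H.hmult i ℓ (s σ⁻¹)
    rw [H.hκ ℓ v hv hvℓ σ hσ] at h1
    show (ρ i ℓ (s σ⁻¹))ᵀ * JL J ℓ i * ρ i ℓ (s σ⁻¹) =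
      (((Ideal.absNorm v.asIdeal : ℚ) ^ w i : ℚ) : ℚ_[ℓ]) • JL J ℓ i
    rw [Rat.cast_pow, Rat.cast_natCast]
    exact h1

/-- the points of the group of all isometries of determinant one -/
theorem Setup.bigL (H : Setup s S kd w P J α κ ρ Pol) (ℓ : ℕ) [Fact ℓ.Prime]
    (x : ∀ i, Matrix (Fin (N i)) (Fin (N i)) (Lc ℓ))
    (hx : ∀ i, (x i)ᵀ * up (JL J ℓ) i * x i = up (JL J ℓ) i) (hxd : ∀ i, (x i).det = 1) :
    ∀ f ∈ Pol, vala f x (1 : Matrix (Fin m) (Fin m) (Lc ℓ)) = 0 := by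
  intro f hf
  obtain ⟨e⟩ := embC ℓ
  have hJC : ∀ i : ι, (up (JL J ℓ) i).map e.toRingHom = (J i).map (algebraMap ℚ ℂ) := by
    intro i
    ext k l
    show e.toRingHom (algebraMap ℚ_[ℓ] (Lc ℓ) (algebraMap ℚ ℚ_[ℓ] (J i k l))) =
      algebraMap ℚ ℂ (J i k l)
    have h7 : e.toRingHom.comp ((algebraMap ℚ_[ℓ] (Lc ℓ)).comp (algebraMap ℚ ℚ_[ℓ])) =
      algebraMap ℚ ℂ := Subsingleton.elim _ _
    exact RingHom.congr_fun h7 _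
  have hmd : ∀ {n : ℕ} (A : Matrix (Fin n) (Fin n) (Lc ℓ)),
      (A.map e.toRingHom).det = e.toRingHom A.det := by
    intro n A
    rw [RingHom.map_det, RingHom.mapMatrix_apply]
  have h1 := H.hbig (fun i => (x i).map e.toRingHom) (fun i => by
    rw [← hJC i, ← Matrix.transpose_map, ← Matrix.map_mul, ← Matrix.map_mul,
      hx i]) (fun i => by rw [hmd, hxd i, map_one]) f hf
  have h2 : (1 : Matrix (Fin m) (Fin m) ℂ) =
      (1 : Matrix (Fin m) (Fin m) (Lc ℓ)).map e.toRingHom :=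
    (Matrix.map_one _ (map_zero _) (map_one _)).symm
  rw [h2, vala_map] at h1
  exact (map_eq_zero e.toRingHom).1 h1

/-- **from the motivic Tate conjecture to the full joint Lie algebra** -/
theorem Setup.full (H : Setup s S kd w P J α κ ρ Pol) (ℓ : ℕ) [Fact ℓ.Prime]
    (h : MTateA Pol (fun i => (ρ i ℓ).comp s) (α.comp s)) :
    ∀ X, (∀ i, SpLie (JL J ℓ i) (X i)) → JTan ℓ (fun i => (ρ i ℓ).comp s) X := by
  have hform : ∀ (i : ι), IsForm (JL J ℓ i) := fun i =>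
    (H.sys i ℓ).2.1.isForm (H.sys i ℓ).2.2.1
  have hall : ∀ f : Pf (Lc ℓ) N, (∀ σ : GK K, evf (up fun i => (ρ i ℓ).comp s σ) f = 0) →
      Van (up (JL J ℓ)) f := by
    intro f hf x hx hxd
    have h1 := (h x 1 (fun i => by rw [hxd i]; exact one_ne_zero)
      (by rw [det_one]; exact one_ne_zero)).2 (H.bigL ℓ x hx hxd) (inc m f)
      (fun σ => by rw [eva_inc]; exact hf σ)
    rw [eva_inc] at h1
    exact h1
  intro X hX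
  exact joint_of_zar (G := GK K) (ρ := fun i => (ρ i ℓ).comp s)
    (fun i => (H.hρc i ℓ).comp H.hs) hform (fun i => (H.hfit i).pos)
    (fun i g => ⟨_, H.hmult i ℓ (s g)⟩)
    (zarF_of (ρ := fun i => (ρ i ℓ).comp s) (fun i => form_symm (hform i))
      (fun i => (H.sys i ℓ).2.2.1) hall) X hX

/-- the conjecture implies absolute irreducibility -/
theorem Setup.abs (H : Setup s S kd w P J α κ ρ Pol) (ℓ : ℕ) [Fact ℓ.Prime]
    (h : MTateA Pol (fun i => (ρ i ℓ).comp s) (α.comp s)) (i : ι) : AbsIrr ℓ ((ρ i ℓ).comp s) := by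
  have hform : IsForm (JL J ℓ i) := (H.sys i ℓ).2.1.isForm (H.sys i ℓ).2.2.1
  refine abs_of_full (J := JL J ℓ i) ?_ hform.2 fun X hX => one_of_joint (H.full ℓ h) i X hX
  rcases hform.1 with h1 | h1
  · exact Or.inl ⟨h1.1, by have := h1.2; omega⟩
  · exact Or.inr h1

/-- **the main theorem** -/
theorem Setup.main (H : Setup s S kd w P J α κ ρ Pol) (ℓ₀ : ℕ) [hℓ₀ : Fact ℓ₀.Prime]
    (hal : ∀ i, Allows (kd i) (N i) ℓ₀ (JL J ℓ₀ i))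
    (hone : MTateA Pol (fun i => (ρ i ℓ₀).comp s) (α.comp s)) :
    Y142.ZI.DensityZero {ℓ | ∃ _ : Fact ℓ.Prime,
      ¬ (MTateA Pol (fun i => (ρ i ℓ).comp s) (α.comp s) ∧ MTateA Pol (fun i => ρ i ℓ) α)} ∧
    ∀ (ℓ : ℕ) [Fact ℓ.Prime],
      (MTateA Pol (fun i => (ρ i ℓ).comp s) (α.comp s) ↔ ∀ i, AbsIrr ℓ ((ρ i ℓ).comp s)) ∧
      (MTateA Pol (fun i => (ρ i ℓ).comp s) (α.comp s) → MTateA Pol (fun i => ρ i ℓ) α) := by
  classical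
  have hfull₀ := H.full ℓ₀ hone
  -- the conclusion at `ℓ` from the joint Lie algebra
  have key : ∀ {Γ' : Type} [Group Γ'] [TopologicalSpace Γ'] [IsTopologicalGroup Γ']
      [CompactSpace Γ'] {s' : GK K →* Γ'} {α' : Γ' →* Matrix (Fin m) (Fin m) ℚ}
      {κ' : ∀ (ℓ : ℕ) [Fact ℓ.Prime], Γ' →* ℚ_[ℓ]}
      {ρ' : ∀ (i : ι) (ℓ : ℕ) [Fact ℓ.Prime], Γ' →* Matrix (Fin (N i)) (Fin (N i)) ℚ_[ℓ]}
      (_ : Setup s' S kd w P J α' κ' ρ' Pol)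
      (_ : MTateA Pol (fun i => (ρ' i ℓ₀).comp s') (α'.comp s')) (ℓ : ℕ) [Fact ℓ.Prime],
      (∀ X, (∀ i, SpLie (JL J ℓ i) (X i)) → JTan ℓ (fun i => ρ' i ℓ) X) →
      MTateA Pol (fun i => ρ' i ℓ) α' := by
    intro Γ' _ _ _ _ s' α' κ' ρ' H' hone' ℓ _ hf
    obtain ⟨U, hU, hUα⟩ := H'.hα
    have hpolL : ∀ (x : ∀ i, Matrix (Fin (N i)) (Fin (N i)) (Lc ℓ))
        (a : Matrix (Fin m) (Fin m) (Lc ℓ)), (∀ i, (x i).det ≠ 0) → a.det ≠ 0 →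
        (∀ f ∈ Pol, vala f x a = 0) →
        ∃ t : Lc ℓ, t ≠ 0 ∧ ∀ i, Sim (up (JL J ℓ) i) (x i) (t ^ w i) := by
      intro x a hx ha hPol
      obtain ⟨e⟩ := embC ℓ
      have hJC : ∀ i : ι, (up (JL J ℓ) i).map e.toRingHom = (J i).map (algebraMap ℚ ℂ) := by
        intro i
        ext k l
        show e.toRingHom (algebraMap ℚ_[ℓ] (Lc ℓ) (algebraMap ℚ ℚ_[ℓ] (J i k l))) =
          algebraMap ℚ ℂ (J i k l)
        have h7 : e.toRingHom.comp ((algebraMap ℚ_[ℓ] (Lc ℓ)).comp (algebraMap ℚ ℚ_[ℓ])) =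
          algebraMap ℚ ℂ := Subsingleton.elim _ _
        exact RingHom.congr_fun h7 _
      have hmd : ∀ {n : ℕ} (A : Matrix (Fin n) (Fin n) (Lc ℓ)),
          (A.map e.toRingHom).det = e.toRingHom A.det := by
        intro n A
        rw [RingHom.map_det, RingHom.mapMatrix_apply]
      obtain ⟨t, ht, hxt⟩ := H'.hpol (fun i => (x i).map e.toRingHom) (a.map e.toRingHom)
        (fun i => by rw [hmd]; exact (map_ne_zero e.toRingHom).2 (hx i))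
        (by rw [hmd]; exact (map_ne_zero e.toRingHom).2 ha)
        (fun f hf => by rw [vala_map, hPol f hf, map_zero])
      refine ⟨e.symm t, (map_ne_zero e.symm).2 ht, fun i => ?_⟩
      have h1 := hxt i
      unfold Sim at h1 ⊢
      rw [← hJC i, ← Matrix.transpose_map, ← Matrix.map_mul, ← Matrix.map_mul] at h1
      ext k l
      apply e.injective
      have h2 := congrFun (congrFun h1 k) l
      rw [Matrix.smul_apply, Matrix.map_apply, Matrix.map_apply, smul_eq_mul] at h2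
      rw [Matrix.smul_apply, smul_eq_mul, map_mul, map_pow, RingEquiv.apply_symm_apply]
      exact h2
    refine group_atA H'.hS H'.hs J H'.hfit H'.hdet H'.hw α' hU hUα ℓ (κ' ℓ) (H'.hκ ℓ)
      (fun i => ρ' i ℓ) (fun i => H'.hρc i ℓ) (fun i g => H'.hmult i ℓ g)
      (fun i => H'.hfrob i ℓ) Pol hpolL (H'.hgal ℓ) ℓ₀
      (fun i => (ρ' i ℓ₀).comp s') (fun i => (H'.hρc i ℓ₀).comp H'.hs) (fun i hi g => ?_)
      (fun i => H'.hfrob i ℓ₀) (fun x a hx ha hPol => (hone' x a hx ha).2 hPol) hf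
    have h1 := H'.hmult i ℓ₀ (s' g)
    rw [H'.hw i hi, pow_zero] at h1
    exact h1
  have hup : ∀ (ℓ : ℕ) [Fact ℓ.Prime],
      (∀ X, (∀ i, SpLie (JL J ℓ i) (X i)) → JTan ℓ (fun i => (ρ i ℓ).comp s) X) →
      MTateA Pol (fun i => (ρ i ℓ).comp s) (α.comp s) ∧ MTateA Pol (fun i => ρ i ℓ) α := by
    intro ℓ _ hf
    refine ⟨key H.fibre hone ℓ hf, key H hone ℓ fun X hX => ?_⟩
    obtain ⟨σ, hσ⟩ := hf X hX
    exact ⟨fun k => s (σ k), hσ⟩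
  constructor
  · refine Y142.ZI.DensityZero.mono (several (K := K) tasks H.hs H.hS ρ (fun i ℓ _ => JL J ℓ i)
      (fun i ℓ _ => H.sys i ℓ) ℓ₀ hal hfull₀).1 ?_
    rintro ℓ ⟨hp, hno⟩
    exact ⟨hp, fun hall' => hno (hup ℓ hall')⟩
  · intro ℓ _
    refine ⟨⟨fun h => H.abs ℓ h, fun h => (hup ℓ ?_).1⟩, fun h => (hup ℓ (H.full ℓ h)).2⟩
    exact several_abs H.hs H.hS ρ (fun i ℓ _ => JL J ℓ i) (fun i ℓ _ => H.sys i ℓ) ℓ₀ hal hfull₀ ℓ h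

/-- **over the rational numbers: from the endomorphisms at `ℓ`** -/
theorem Setup.main_Q (H : Setup s S kd w P J α κ ρ Pol) (hK : Module.finrank ℚ K = 1)
    (hκc : ∀ (ℓ : ℕ) [Fact ℓ.Prime], Continuous (κ ℓ)) (c : ι → ℕ) (hwc : ∀ i, 0 < w i + 2 * c i)
    (hP : ∀ i, ∀ v ∉ S, ∀ z : ℂ, Polynomial.aeval z (P i v) = 0 →
      ‖z‖ ^ 2 = (Ideal.absNorm v.asIdeal : ℝ) ^ w i ∧
      IsIntegral ℤ ((Ideal.absNorm v.asIdeal : ℂ) ^ c i * z))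
    (ℓ₀ : ℕ) [hℓ₀ : Fact ℓ₀.Prime]
    (hal : ∀ i, Allows (kd i) (N i) ℓ₀ (JL J ℓ₀ i))
    (hone : MTateA Pol (fun i => (ρ i ℓ₀).comp s) (α.comp s)) (ℓ : ℕ) [Fact ℓ.Prime] :
    (∀ i, SS (ρ i ℓ)) ∧ (MTateA Pol (fun i => (ρ i ℓ).comp s) (α.comp s) ↔
      ∀ i, ∀ A : Matrix (Fin (N i)) (Fin (N i)) ℚ_[ℓ],
        (∀ g, A * ρ i ℓ (s g) = ρ i ℓ (s g) * A) →
          ∃ t : ℚ_[ℓ], A = t • (1 : Matrix (Fin (N i)) (Fin (N i)) ℚ_[ℓ])) := by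
  have hfull₀ := H.full ℓ₀ hone
  have hone₀ : ∀ i X, SpLie (JL J ℓ₀ i) X → IsTangent ℓ₀ ((ρ i ℓ₀).comp s) X :=
    fun i X hX => one_of_joint hfull₀ i X hX
  constructor
  · intro i
    exact ss_every hK H.hs H.hS (ρ i) (fun ℓ _ => JL J ℓ i) (fun ℓ _ => H.sys i ℓ) κ hκc
      (w := w i) (c := c i) (hwc i) (fun ℓ _ g => H.hmult i ℓ g) H.hκ (hP i) ℓ₀ (hone₀ i) ℓ
  · rw [((H.main ℓ₀ hal hone).2 ℓ).1]
    refine forall_congr' fun i => ⟨fun h A hA => ?_, fun h => ?_⟩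
    · exact scalar_of_abs (L := AlgebraicClosure ℚ_[ℓ]) (ρ := (ρ i ℓ).comp s) h hA
    · exact every_Q hK H.hs H.hS (ρ i) (fun ℓ _ => JL J ℓ i) (fun ℓ _ => H.sys i ℓ) κ hκc
        (w := w i) (c := c i) (hwc i) (fun ℓ _ g => H.hmult i ℓ g) H.hκ (hP i) ℓ₀ (hone₀ i) ℓ h

end

end

end Pool.Agent.U273.AI
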