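import Mathlib

/-!
# Commutants of normal subgroups: scalars, or a coset of trace zero

Let `R` be an irreducible representation of a group `G` over a field, and `Δ` a normal subgroup which
contains an element with simple eigenvalues. Then the commutant of `Δ` consists of scalars, or the
trace of `R` vanishes on a coset of `Δ`.
-/

set_option autoImplicit false
set_option linter.style.haveILetI false
set_option linter.unusedSectionVars false

namespace Pool.Agent.U273.AI

open Matrix

/-- Jordan: a transitive finite group on a set with at least two elements has an element without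
fixed points -/
theorem exists_derangement_fin {T H : Type*} [Group H] [Finite H] [MulAction H T] [Finite T]
    [Nontrivial T] (htr : ∀ x y : T, ∃ h : H, h • x = y) : ∃ h : H, ∀ x : T, h • x ≠ x := by
  classical
  by_contra hcon
  push Not at hcon
  haveI : Fintype H := Fintype.ofFinite H
  haveI : Fintype T := Fintype.ofFinite T
  haveI : ∀ h : H, Fintype (MulAction.fixedBy T h) := fun h => Fintype.ofFinite _
  haveI : Fintype (MulAction.orbitRel.Quotient H T) := Fintype.ofFinite _
  have h1 := MulAction.sum_card_fixedBy_eq_card_orbits_mul_card_group H T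
  have h2 : Fintype.card (MulAction.orbitRel.Quotient H T) ≤ 1 := by
    rw [Fintype.card_le_one_iff]
    intro a b
    induction a using Quotient.inductionOn'
    induction b using Quotient.inductionOn'
    rename_i a b
    obtain ⟨h, hh⟩ := htr b a
    exact Quotient.sound' ⟨h, hh⟩
  have h3 : ∀ h : H, 1 ≤ Fintype.card (MulAction.fixedBy T h) := by
    intro h
    obtain ⟨x, hx⟩ := hcon h
    exact Fintype.card_pos_iff.2 ⟨⟨x, hx⟩⟩
  have h4 : 2 ≤ Fintype.card (MulAction.fixedBy T (1 : H)) := by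
    obtain ⟨x, y, hxy⟩ := exists_pair_ne T
    have : 1 < Fintype.card (MulAction.fixedBy T (1 : H)) := by
      rw [Fintype.one_lt_card_iff]
      exact ⟨⟨x, one_smul H x⟩, ⟨y, one_smul H y⟩, fun h => hxy (congrArg Subtype.val h)⟩
    exact this
  have h5 : Fintype.card H < ∑ h : H, Fintype.card (MulAction.fixedBy T h) := by
    have : ∑ _h : H, 1 < ∑ h : H, Fintype.card (MulAction.fixedBy T h) :=
      Finset.sum_lt_sum (fun h _ => h3 h) ⟨1, Finset.mem_univ _, h4⟩
    simpa using this
  rw [h1] at h5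
  have h6 : Fintype.card (Quotient (MulAction.orbitRel H T)) ≤ 1 := by
    convert h2
  exact absurd h5 (not_lt.2 ((Nat.mul_le_mul_right _ h6).trans (by rw [one_mul])))

theorem exists_derangement {T G : Type*} [Group G] [MulAction G T] [Finite T]
    [Nontrivial T] (htr : ∀ x y : T, ∃ h : G, h • x = y) : ∃ h : G, ∀ x : T, h • x ≠ x := by
  obtain ⟨⟨p, g, hg⟩, hp⟩ := exists_derangement_fin (T := T)
    (H := (MulAction.toPermHom G T).range) (by
      intro x y
      obtain ⟨g, hg⟩ := htr x y
      exact ⟨⟨MulAction.toPermHom G T g, g, rfl⟩, hg⟩)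
  refine ⟨g, fun x hx => hp x ?_⟩
  subst hg
  exact hx

section blocks

variable {L : Type*} [Field L] {N : ℕ} {G : Type*} [Group G]
  (R : G →* Matrix (Fin N) (Fin N) L) (Δ : Subgroup G)

/-- the matrices which commute with `Δ` -/
def Cm (A : Matrix (Fin N) (Fin N) L) : Prop := ∀ δ ∈ Δ, A * R δ = R δ * A

variable (e : Module.Basis (Fin N) L (Fin N → L))

/-- the eigenvalue of `A` at `e a` -/
noncomputable def ch (A : Matrix (Fin N) (Fin N) L) (a : Fin N) : L := e.repr (A *ᵥ e a) a

/-- the block of `a` -/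
noncomputable def Wb (a : Fin N) : Submodule L (Fin N → L) where
  carrier := {v | ∀ A, Cm R Δ A → A *ᵥ v = ch e A a • v}
  add_mem' := by
    intro u v hu hv A hA
    rw [mulVec_add, hu A hA, hv A hA, smul_add]
  zero_mem' := by
    intro A _
    rw [mulVec_zero, smul_zero]
  smul_mem' := by
    intro c v hv A hA
    rw [mulVec_smul, hv A hA, smul_comm]

variable {R Δ e}

theorem mem_Wb {a : Fin N} {v : Fin N → L} :
    v ∈ Wb R Δ e a ↔ ∀ A, Cm R Δ A → A *ᵥ v = ch e A a • v := Iff.rfl

section eig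

variable {γ : G} (hγ : γ ∈ Δ) {lam : Fin N → L} (hlam : Function.Injective lam)
  (hev : ∀ a, R γ *ᵥ e a = lam a • e a)

include hγ hlam hev

theorem eig_of {A : Matrix (Fin N) (Fin N) L} (hA : Cm R Δ A) (a : Fin N) :
    A *ᵥ e a = ch e A a • e a := by
  have h1 : R γ *ᵥ (A *ᵥ e a) = lam a • (A *ᵥ e a) := by
    rw [mulVec_mulVec, ← hA γ hγ, ← mulVec_mulVec, hev, mulVec_smul]
  apply e.repr.injective
  ext b
  by_cases hb : b = a
  · subst hb
    rw [map_smul, Finsupp.smul_apply, Module.Basis.repr_self, Finsupp.single_eq_same, smul_eq_mul,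
      mul_one]
    rfl
  · rw [map_smul, Finsupp.smul_apply, Module.Basis.repr_self, Finsupp.single_eq_of_ne hb, smul_zero]
    have h2 : ∀ w : Fin N → L, e.repr (R γ *ᵥ w) b = lam b * e.repr w b := by
      intro w
      have h3 : w = ∑ c, e.repr w c • e c := (e.sum_repr w).symm
      conv_lhs => rw [h3]
      rw [mulVec_sum, map_sum, Finsupp.finsetSum_apply, Finset.sum_eq_single b]
      · rw [mulVec_smul, hev, map_smul, map_smul, Finsupp.smul_apply, Finsupp.smul_apply,
          Module.Basis.repr_self, Finsupp.single_eq_same]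
        simp only [smul_eq_mul]
        ring
      · intro c _ hc
        rw [mulVec_smul, hev, map_smul, map_smul, Finsupp.smul_apply, Finsupp.smul_apply,
          Module.Basis.repr_self, Finsupp.single_eq_of_ne (Ne.symm hc), smul_zero, smul_zero]
      · intro h
        exact absurd (Finset.mem_univ b) h
    have h3 := h2 (A *ᵥ e a)
    rw [h1, map_smul, Finsupp.smul_apply, smul_eq_mul] at h3
    have h4 : (lam a - lam b) * e.repr (A *ᵥ e a) b = 0 := by linear_combination h3
    exact (mul_eq_zero.1 h4).resolve_left fun h =>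
      hb (hlam (sub_eq_zero.1 h).symm)

theorem repr_mul {A : Matrix (Fin N) (Fin N) L} (hA : Cm R Δ A) (v : Fin N → L) (b : Fin N) :
    e.repr (A *ᵥ v) b = ch e A b * e.repr v b := by
  have h3 : v = ∑ c, e.repr v c • e c := (e.sum_repr v).symm
  conv_lhs => rw [h3]
  rw [mulVec_sum, map_sum, Finsupp.finsetSum_apply, Finset.sum_eq_single b]
  · rw [mulVec_smul, eig_of hγ hlam hev hA, map_smul, map_smul, Finsupp.smul_apply,
      Finsupp.smul_apply, Module.Basis.repr_self, Finsupp.single_eq_same]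
    simp only [smul_eq_mul]
    ring
  · intro c _ hc
    rw [mulVec_smul, eig_of hγ hlam hev hA, map_smul, map_smul, Finsupp.smul_apply,
      Finsupp.smul_apply, Module.Basis.repr_self, Finsupp.single_eq_of_ne (Ne.symm hc), smul_zero,
      smul_zero]
  · intro h
    exact absurd (Finset.mem_univ b) h

theorem self_mem (a : Fin N) : e a ∈ Wb R Δ e a := fun _ hA => eig_of hγ hlam hev hA a

/-- a vector with a common eigencharacter lies in the block of each of its coordinates -/
theorem char_of_coord {v : Fin N → L} {c : Matrix (Fin N) (Fin N) L → L}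
    (hv : ∀ A, Cm R Δ A → A *ᵥ v = c A • v) {b : Fin N} (hb : e.repr v b ≠ 0)
    {A : Matrix (Fin N) (Fin N) L} (hA : Cm R Δ A) : ch e A b = c A := by
  have h1 := repr_mul hγ hlam hev hA v b
  rw [hv A hA, map_smul, Finsupp.smul_apply, smul_eq_mul] at h1
  exact (mul_right_cancel₀ hb h1).symm

theorem Wb_eq {a b : Fin N} {v : Fin N → L} (hv : v ∈ Wb R Δ e a) (hb : e.repr v b ≠ 0) :
    Wb R Δ e a = Wb R Δ e b := by
  have h1 : ∀ A, Cm R Δ A → ch e A b = ch e A a := fun A hA =>
    char_of_coord hγ hlam hev (c := fun A => ch e A a) hv hb hA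
  ext w
  constructor
  · intro hw A hA
    rw [hw A hA, h1 A hA]
  · intro hw A hA
    rw [hw A hA, h1 A hA]

variable [hn : Δ.Normal]

omit hγ hlam hev in
theorem conj_mem {A : Matrix (Fin N) (Fin N) L} (hA : Cm R Δ A) (g : G) :
    Cm R Δ (R g * A * R g⁻¹) := by
  intro δ hδ
  have h1 : R g⁻¹ * R δ = R (g⁻¹ * δ * g) * R g⁻¹ := by
    rw [← map_mul, ← map_mul]
    congr 1
    group
  have h2 : g⁻¹ * δ * g ∈ Δ := by
    have := hn.conj_mem δ hδ g⁻¹
    rwa [inv_inv] at this
  have h3 : R g * R (g⁻¹ * δ * g) = R δ * R g := by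
    rw [← map_mul, ← map_mul]
    congr 1
    group
  calc R g * A * R g⁻¹ * R δ = R g * A * (R g⁻¹ * R δ) := by rw [Matrix.mul_assoc]
    _ = R g * (A * R (g⁻¹ * δ * g)) * R g⁻¹ := by
        rw [h1]; simp only [Matrix.mul_assoc]
    _ = (R g * R (g⁻¹ * δ * g)) * A * R g⁻¹ := by
        rw [hA _ h2]; simp only [Matrix.mul_assoc]
    _ = R δ * (R g * A * R g⁻¹) := by
        rw [h3]; simp only [Matrix.mul_assoc]

theorem map_Wb (g : G) (a : Fin N) :
    ∃ b, (Wb R Δ e a).map (toLin' (R g)) = Wb R Δ e b := by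
  have hinv : ∀ (h : G) (v : Fin N → L), R h⁻¹ *ᵥ (R h *ᵥ v) = v := by
    intro h v
    rw [mulVec_mulVec, ← map_mul, inv_mul_cancel, map_one, one_mulVec]
  have hinv' : ∀ (h : G) (v : Fin N → L), R h *ᵥ (R h⁻¹ *ᵥ v) = v := by
    intro h v
    rw [mulVec_mulVec, ← map_mul, mul_inv_cancel, map_one, one_mulVec]
  have hne : R g *ᵥ e a ≠ 0 := by
    intro h
    have h1 := hinv g (e a)
    rw [h, mulVec_zero] at h1
    exact e.ne_zero a h1.symm
  obtain ⟨b, hb⟩ : ∃ b, e.repr (R g *ᵥ e a) b ≠ 0 := by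
    by_contra hcon
    push Not at hcon
    apply hne
    apply e.repr.injective
    ext b
    rw [hcon b, map_zero]
    rfl
  have hchar : ∀ v ∈ Wb R Δ e a, ∀ A, Cm R Δ A →
      A *ᵥ (R g *ᵥ v) = ch e (R g⁻¹ * A * R g) a • (R g *ᵥ v) := by
    intro v hv A hA
    have h1 := conj_mem hA g⁻¹
    rw [inv_inv] at h1
    have h2 := hv _ h1
    have h3 : R g *ᵥ ((R g⁻¹ * A * R g) *ᵥ v) = A *ᵥ (R g *ᵥ v) := by
      rw [← mulVec_mulVec, ← mulVec_mulVec, hinv']
    rw [← h3, h2, mulVec_smul]
  have hb' : ∀ A, Cm R Δ A → ch e A b = ch e (R g⁻¹ * A * R g) a := fun A hA =>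
    char_of_coord hγ hlam hev (c := fun A => ch e (R g⁻¹ * A * R g) a)
      (hchar (e a) (self_mem hγ hlam hev a)) hb hA
  refine ⟨b, le_antisymm ?_ ?_⟩
  · rintro _ ⟨v, hv, rfl⟩
    intro A hA
    rw [toLin'_apply, hchar v hv A hA, hb' A hA]
  · intro u hu
    refine ⟨R g⁻¹ *ᵥ u, ?_, by rw [toLin'_apply, hinv']⟩
    intro A hA
    have h1 := conj_mem hA g
    have h2 := hu _ h1
    rw [hb' _ h1] at h2
    have h4 : R g⁻¹ * (R g * A * R g⁻¹) * R g = A := by
      have h5 : R g⁻¹ * R g = 1 := by rw [← map_mul, inv_mul_cancel, map_one]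
      calc R g⁻¹ * (R g * A * R g⁻¹) * R g = (R g⁻¹ * R g) * A * (R g⁻¹ * R g) := by
            simp only [Matrix.mul_assoc]
        _ = A := by rw [h5, Matrix.one_mul, Matrix.mul_one]
    rw [h4] at h2
    have h3 : R g⁻¹ *ᵥ ((R g * A * R g⁻¹) *ᵥ u) = A *ᵥ (R g⁻¹ *ᵥ u) := by
      rw [← mulVec_mulVec, ← mulVec_mulVec, hinv]
    rw [← h3, h2, mulVec_smul]

/-- **scalars, or a coset of trace zero** -/
theorem scalar_or_trace (hirr : ∀ W : Submodule L (Fin N → L),
    (∀ g, ∀ w ∈ W, R g *ᵥ w ∈ W) → W = ⊥ ∨ W = ⊤) :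
    (∀ A, Cm R Δ A → ∃ c : L, A = c • (1 : Matrix (Fin N) (Fin N) L)) ∨
      ∃ g, ∀ δ ∈ Δ, (R (g * δ)).trace = 0 := by
  classical
  rcases Nat.eq_zero_or_pos N with hN | hN
  · subst hN
    exact Or.inl fun A _ => ⟨0, Subsingleton.elim _ _⟩
  let T : Type _ := Set.range (Wb R Δ e)
  haveI : Finite T := Set.finite_range _
  have hsm : ∀ (g : G) (t : T), (t.1).map (toLin' (R g)) ∈ Set.range (Wb R Δ e) := by
    rintro g ⟨_, a, rfl⟩
    obtain ⟨b, hb⟩ := map_Wb hγ hlam hev g a
    exact ⟨b, hb.symm⟩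
  letI act : MulAction G T :=
    { smul := fun g t => ⟨(t.1).map (toLin' (R g)), hsm g t⟩
      one_smul := by
        intro t
        apply Subtype.ext
        show (t.1).map (toLin' (R 1)) = t.1
        rw [map_one, toLin'_one, Submodule.map_id]
      mul_smul := by
        intro g h t
        apply Subtype.ext
        show (t.1).map (toLin' (R (g * h))) = ((t.1).map (toLin' (R h))).map (toLin' (R g))
        rw [map_mul, toLin'_mul, Submodule.map_comp] }
  have hact : ∀ (g : G) (t : T), ((g • t : T) : Submodule L (Fin N → L)) =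
      (t.1).map (toLin' (R g)) := fun g t => rfl
  have htr : ∀ x y : T, ∃ h : G, h • x = y := by
    rintro ⟨_, a, rfl⟩ ⟨_, b, rfl⟩
    by_contra hcon
    push Not at hcon
    let U : Submodule L (Fin N → L) := ⨆ g : G, (Wb R Δ e a).map (toLin' (R g))
    have hU : ∀ g, ∀ w ∈ U, R g *ᵥ w ∈ U := by
      intro g w hw
      have h1 : U.map (toLin' (R g)) ≤ U := by
        show (⨆ g : G, (Wb R Δ e a).map (toLin' (R g))).map (toLin' (R g)) ≤ _
        rw [Submodule.map_iSup]
        refine iSup_le fun h => ?_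
        rw [← Submodule.map_comp, ← toLin'_mul, ← map_mul]
        exact le_iSup (fun g : G => (Wb R Δ e a).map (toLin' (R g))) (g * h)
      exact h1 ⟨w, hw, by rw [toLin'_apply]⟩
    rcases hirr U hU with h1 | h1
    · have h2 : e a ∈ U := by
        have h3 : (Wb R Δ e a).map (toLin' (R 1)) ≤ U :=
          le_iSup (fun g : G => (Wb R Δ e a).map (toLin' (R g))) 1
        apply h3
        exact ⟨e a, self_mem hγ hlam hev a, by rw [map_one, toLin'_one, LinearMap.id_apply]⟩
      rw [h1, Submodule.mem_bot] at h2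
      exact e.ne_zero a h2
    · have h2 : U ≤ LinearMap.ker (e.coord b) := by
        refine iSup_le fun g => ?_
        intro u hu
        rw [LinearMap.mem_ker, Module.Basis.coord_apply]
        by_contra hub
        obtain ⟨c, hc⟩ := map_Wb hγ hlam hev g a
        rw [hc] at hu
        have h3 := Wb_eq hγ hlam hev hu hub
        apply hcon g
        apply Subtype.ext
        rw [hact]
        show (Wb R Δ e a).map (toLin' (R g)) = Wb R Δ e b
        rw [hc, h3]
      have h3 : e b ∈ LinearMap.ker (e.coord b) := h2 (by rw [h1]; trivial)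
      rw [LinearMap.mem_ker, Module.Basis.coord_apply, Module.Basis.repr_self,
        Finsupp.single_eq_same] at h3
      exact one_ne_zero h3
  by_cases hT : Nontrivial T
  · right
    obtain ⟨g, hg⟩ := exists_derangement htr
    refine ⟨g, fun δ hδ => ?_⟩
    have h1 : (R (g * δ)).trace = ∑ a, e.repr (R (g * δ) *ᵥ e a) a := by
      have h2 : (R (g * δ)).trace = LinearMap.trace L _ (toLin' (R (g * δ))) := by
        rw [LinearMap.trace_eq_matrix_trace L (Pi.basisFun L (Fin N)),
          LinearMap.toMatrix_eq_toMatrix', LinearMap.toMatrix'_toLin']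
      rw [h2, LinearMap.trace_eq_matrix_trace L e, Matrix.trace]
      refine Finset.sum_congr rfl fun a _ => ?_
      rw [Matrix.diag_apply, LinearMap.toMatrix_apply, toLin'_apply]
    rw [h1]
    refine Finset.sum_eq_zero fun a _ => ?_
    by_contra hne
    have h3 : R δ *ᵥ e a ∈ Wb R Δ e a := by
      intro A hA
      rw [mulVec_mulVec, hA δ hδ, ← mulVec_mulVec, self_mem hγ hlam hev a A hA, mulVec_smul]
    obtain ⟨c, hc⟩ := map_Wb hγ hlam hev g a
    have h4 : R (g * δ) *ᵥ e a ∈ Wb R Δ e c := by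
      rw [← hc]
      exact ⟨R δ *ᵥ e a, h3, by rw [toLin'_apply, mulVec_mulVec, ← map_mul]⟩
    have h5 := Wb_eq hγ hlam hev h4 hne
    apply hg ⟨Wb R Δ e a, a, rfl⟩
    apply Subtype.ext
    rw [hact]
    show (Wb R Δ e a).map (toLin' (R g)) = Wb R Δ e a
    rw [hc, h5]
  · left
    rw [not_nontrivial_iff_subsingleton] at hT
    intro A hA
    refine ⟨ch e A ⟨0, hN⟩, ?_⟩
    apply toLin'.injective
    apply e.ext
    intro b
    have h1 : (⟨Wb R Δ e b, b, rfl⟩ : T) = ⟨Wb R Δ e ⟨0, hN⟩, ⟨0, hN⟩, rfl⟩ :=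
      Subsingleton.elim _ _
    have h2 : Wb R Δ e b = Wb R Δ e ⟨0, hN⟩ := congrArg Subtype.val h1
    have h3 := self_mem hγ hlam hev b
    rw [h2] at h3
    rw [toLin'_apply, toLin'_apply, h3 A hA, smul_mulVec, one_mulVec]

end eig

end blocks

end Pool.Agent.U273.AI
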