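import Pool.Agent.U273.AI.Main
import Pool.Agent.U273.AI.Sch

/-!
# Full Lie algebra implies absolutely irreducible
-/

set_option autoImplicit false
set_option linter.unusedSectionVars false
set_option linter.style.haveILetI false

open Matrix Filter Topology
open Pool.Agent.Y142.ZO Pool.Agent.Y142.ZS
open Pool.Agent.R932.PO (JTan IsForm)

namespace Pool.Agent.U273.AI

/-- a functional on matrices is given by a trace -/
theorem functional_trace {F : Type} [Field F] {N : ℕ}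
    (φ : Matrix (Fin N) (Fin N) F →ₗ[F] F) :
    ∃ M : Matrix (Fin N) (Fin N) F, ∀ A, φ A = (M * A).trace := by
  classical
  refine ⟨Matrix.of fun i j => φ (Matrix.single j i 1), fun A => ?_⟩
  have h1 : A = ∑ a, ∑ b, A a b • Matrix.single a b (1 : F) := by
    conv_lhs => rw [Matrix.matrix_eq_sum_single A]
    simp
  conv_lhs => rw [h1]
  rw [map_sum, Matrix.trace]
  simp only [Matrix.diag_apply, Matrix.mul_apply, Matrix.of_apply, map_sum, map_smul, smul_eq_mul]
  rw [Finset.sum_comm]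
  refine Finset.sum_congr rfl fun i _ => Finset.sum_congr rfl fun j _ => ?_
  rw [mul_comm]

/-- the subalgebra generated by the Lie algebra of a form -/
theorem alg_of_form {F : Type} [Field F] [CharZero F] {N : ℕ} {J : Matrix (Fin N) (Fin N) F}
    (hJ : (Jᵀ = J ∧ 3 ≤ N) ∨ Jᵀ = -J) (hdet : J.det ≠ 0)
    (𝒜 : Subalgebra F (Matrix (Fin N) (Fin N) F)) (h : ∀ X, Xᵀ * J + J * X = 0 → X ∈ 𝒜) :
    𝒜 = ⊤ := by
  by_contra hne
  have h1 : ∃ B, B ∉ 𝒜 := by
    by_contra hcon
    push Not at hcon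
    exact hne (eq_top_iff.2 fun B _ => hcon B)
  obtain ⟨B, hB⟩ := h1
  have hB' : B ∉ Subalgebra.toSubmodule 𝒜 := hB
  obtain ⟨φ, hφ0, hφ⟩ := Submodule.exists_le_ker_of_notMem hB'
  obtain ⟨M, hM⟩ := functional_trace φ
  have h2 : M = 0 := by
    refine zero_of_trace hJ hdet ?_ fun X Y hX hY => ?_
    · have h3 := hM 1
      rw [mul_one] at h3
      rw [← h3]
      exact hφ 𝒜.one_mem
    · rw [← hM]
      exact hφ (𝒜.mul_mem (h X hX) (h Y hY))
  apply hφ0
  rw [hM, h2, zero_mul, trace_zero]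

section
variable {ℓ : ℕ} [hℓ : Fact ℓ.Prime] {N : ℕ} {G : Type} [Group G]

/-- **if the Lie algebra of the image contains the Lie algebra of the form then the representation is
absolutely irreducible** -/
theorem abs_of_full {ρ : G →* Matrix (Fin N) (Fin N) ℚ_[ℓ]} {J : Matrix (Fin N) (Fin N) ℚ_[ℓ]}
    (hJ : (Jᵀ = J ∧ 3 ≤ N) ∨ Jᵀ = -J) (hdet : J.det ≠ 0)
    (hfull : ∀ X, SpLie J X → IsTangent ℓ ρ X) : AbsIrr ℓ ρ := by
  classical
  intro W hW
  haveI : T2Space (Matrix (Fin N) (Fin N) ℚ_[ℓ]) :=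
    inferInstanceAs (T2Space (Fin N → Fin N → ℚ_[ℓ]))
  let a := algebraMap ℚ_[ℓ] (AlgebraicClosure ℚ_[ℓ])
  let 𝒜 : Subalgebra ℚ_[ℓ] (Matrix (Fin N) (Fin N) ℚ_[ℓ]) :=
    { carrier := {A | ∀ w ∈ W, A.map a *ᵥ w ∈ W}
      mul_mem' := by
        intro A B hA hB w hw
        rw [Matrix.map_mul, ← mulVec_mulVec]
        exact hA _ (hB w hw)
      add_mem' := by
        intro A B hA hB w hw
        rw [Matrix.map_add a (map_add _), add_mulVec]
        exact W.add_mem (hA w hw) (hB w hw)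
      algebraMap_mem' := by
        intro c w hw
        have h1 : ((algebraMap ℚ_[ℓ] (Matrix (Fin N) (Fin N) ℚ_[ℓ])) c).map a =
            (a c) • (1 : Matrix (Fin N) (Fin N) (AlgebraicClosure ℚ_[ℓ])) := by
          rw [Algebra.algebraMap_eq_smul_one]
          ext i j
          rw [Matrix.map_apply, Matrix.smul_apply, Matrix.smul_apply, smul_eq_mul, smul_eq_mul,
            map_mul, Matrix.one_apply, Matrix.one_apply]
          split_ifs <;> simp
        rw [h1, smul_mulVec, one_mulVec]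
        exact W.smul_mem _ hw }
  have hρ : ∀ g, ρ g ∈ 𝒜 := fun g w hw => hW g w hw
  have hcl : IsClosed ((Subalgebra.toSubmodule 𝒜 : Submodule ℚ_[ℓ] _) :
      Set (Matrix (Fin N) (Fin N) ℚ_[ℓ])) :=
    Submodule.closed_of_finiteDimensional _
  have htan : ∀ X, SpLie J X → X ∈ 𝒜 := by
    intro X hX
    obtain ⟨σ, hσ⟩ := hfull X hX
    exact hcl.mem_of_tendsto hσ (Eventually.of_forall fun k =>
      𝒜.smul_mem (𝒜.sub_mem (hρ _) 𝒜.one_mem) _)
  have htop := alg_of_form hJ hdet 𝒜 htan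
  refine bot_or_top_of_single fun i j w hw => ?_
  have h1 : Matrix.single i j (1 : ℚ_[ℓ]) ∈ 𝒜 := by rw [htop]; trivial
  have h2 := h1 w hw
  rwa [Matrix.map_single (α := ℚ_[ℓ]) (β := AlgebraicClosure ℚ_[ℓ]) i j 1 a, map_one] at h2

end

end Pool.Agent.U273.AI
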