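import Mathlib

/-!
# Products of two elements of the Lie algebra of a form, and the trace
-/

set_option autoImplicit false
set_option linter.unusedSectionVars false

namespace Pool.Agent.U273.AI

open Matrix

section

variable {F : Type*} [Field F] {N : ℕ} {J : Matrix (Fin N) (Fin N) F}

/-- the form -/
def Bf (J : Matrix (Fin N) (Fin N) F) (a x : Fin N → F) : F := a ⬝ᵥ J *ᵥ x

theorem Bf_eq (a x : Fin N → F) : Bf J a x = a ᵥ* J ⬝ᵥ x := dotProduct_mulVec a J x

theorem Bf_add_left (a b x : Fin N → F) : Bf J (a + b) x = Bf J a x + Bf J b x := by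
  unfold Bf; rw [add_dotProduct]

theorem Bf_smul_left (c : F) (a x : Fin N → F) : Bf J (c • a) x = c * Bf J a x := by
  unfold Bf; rw [smul_dotProduct, smul_eq_mul]

theorem Bf_sub_left (a b x : Fin N → F) : Bf J (a - b) x = Bf J a x - Bf J b x := by
  unfold Bf; rw [sub_dotProduct]

theorem Bf_sub_right (a x y : Fin N → F) : Bf J a (x - y) = Bf J a x - Bf J a y := by
  unfold Bf; rw [mulVec_sub, dotProduct_sub]

theorem Bf_smul_right (c : F) (a x : Fin N → F) : Bf J a (c • x) = c * Bf J a x := by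
  unfold Bf; rw [mulVec_smul, dotProduct_smul, smul_eq_mul]

theorem Bf_symm (hJ : Jᵀ = J) (a x : Fin N → F) : Bf J a x = Bf J x a := by
  rw [Bf_eq, dotProduct_comm, ← mulVec_transpose, hJ]
  rfl

theorem eq_zero_of_Bf (hdet : J.det ≠ 0) {x : Fin N → F} (h : ∀ a, Bf J a x = 0) : x = 0 := by
  have h1 : J *ᵥ x = 0 := by
    ext i
    have := h (Pi.single i 1)
    unfold Bf at this
    rw [single_one_dotProduct] at this
    exact this
  exact Matrix.eq_zero_of_mulVec_eq_zero hdet h1

theorem exists_Bf_ne (hdet : J.det ≠ 0) {x : Fin N → F} (hx : x ≠ 0) : ∃ a, Bf J a x ≠ 0 := by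
  by_contra h
  push Not at h
  exact hx (eq_zero_of_Bf hdet h)

/-- inclusion of kernels -/
theorem smul_of_ker (hdet : J.det ≠ 0) {x y : Fin N → F}
    (h : ∀ a, Bf J a x = 0 → Bf J a y = 0) : ∃ μ : F, y = μ • x := by
  by_cases hx : x = 0
  · refine ⟨0, ?_⟩
    rw [zero_smul]
    refine eq_zero_of_Bf hdet fun a => h a ?_
    rw [hx]
    unfold Bf
    rw [mulVec_zero, dotProduct_zero]
  · obtain ⟨a₀, ha₀⟩ := exists_Bf_ne hdet hx
    refine ⟨Bf J a₀ y / Bf J a₀ x, ?_⟩
    rw [← sub_eq_zero]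
    refine eq_zero_of_Bf hdet fun a => ?_
    have h1 := h (a - (Bf J a x / Bf J a₀ x) • a₀) (by
      rw [Bf_sub_left, Bf_smul_left]
      field_simp
      ring)
    rw [Bf_sub_left, Bf_smul_left, sub_eq_zero] at h1
    rw [Bf_sub_right, Bf_smul_right, h1]
    field_simp
    ring

theorem exists_perp (hN : 3 ≤ N) (a d : Fin N → F) : ∃ c, Bf J a c = 0 ∧ c ∉ Submodule.span F {d} := by
  by_contra hcon
  push Not at hcon
  let f : (Fin N → F) →ₗ[F] F := dotProductBilin F F (a ᵥ* J)
  have hf : ∀ c, f c = Bf J a c := by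
    intro c
    rw [Bf_eq]
    rfl
  have h1 : LinearMap.ker f ≤ Submodule.span F {d} := by
    intro c hc
    rw [LinearMap.mem_ker, hf] at hc
    exact hcon c hc
  have h2 := Submodule.finrank_mono h1
  have h3 : Module.finrank F (Submodule.span F {d}) ≤ 1 := by
    have := finrank_span_le_card (R := F) ({d} : Set (Fin N → F))
    simpa using this
  have h4 := LinearMap.finrank_range_add_finrank_ker f
  have h5 : Module.finrank F (LinearMap.range f) ≤ 1 := by
    have := Submodule.finrank_le (LinearMap.range f)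
    rwa [Module.finrank_self] at this
  rw [Module.finrank_fin_fun] at h4
  omega

/-- `x ↦ B(b,x) a` -/
def er (J : Matrix (Fin N) (Fin N) F) (a b : Fin N → F) : Matrix (Fin N) (Fin N) F :=
  vecMulVec a (b ᵥ* J)

theorem er_mul (a b c d : Fin N → F) : er J a b * er J c d = Bf J b c • er J a d := by
  unfold er
  rw [vecMulVec_mul_vecMulVec, ← Bf_eq, vecMulVec_smul]

theorem trace_er (M : Matrix (Fin N) (Fin N) F) (a d : Fin N → F) :
    (M * er J a d).trace = Bf J d (M *ᵥ a) := by
  unfold er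
  rw [mul_vecMulVec, trace_vecMulVec, Bf_eq, dotProduct_comm]

theorem skew_sym (hJ : Jᵀ = J) (a b : Fin N → F) :
    (er J a b - er J b a)ᵀ * J + J * (er J a b - er J b a) = 0 := by
  have h1 : ∀ a b : Fin N → F, (er J a b)ᵀ * J = vecMulVec (J *ᵥ b) (a ᵥ* J) := by
    intro a b
    unfold er
    rw [transpose_vecMulVec, vecMulVec_mul]
    congr 1
    rw [← mulVec_transpose, hJ]
  have h2 : ∀ a b : Fin N → F, J * er J a b = vecMulVec (J *ᵥ a) (b ᵥ* J) := by
    intro a b
    unfold er
    rw [mul_vecMulVec]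
  rw [transpose_sub, Matrix.sub_mul, Matrix.mul_sub, h1, h1, h2, h2]
  abel

theorem skew_alt (hJ : Jᵀ = -J) (a : Fin N → F) : (er J a a)ᵀ * J + J * er J a a = 0 := by
  have h1 : (er J a a)ᵀ * J = vecMulVec (-(J *ᵥ a)) (a ᵥ* J) := by
    unfold er
    rw [transpose_vecMulVec, vecMulVec_mul]
    congr 1
    rw [← mulVec_transpose, hJ, neg_mulVec]
  have h2 : J * er J a a = vecMulVec (J *ᵥ a) (a ᵥ* J) := by
    unfold er
    rw [mul_vecMulVec]
  rw [h1, h2, neg_vecMulVec, neg_add_cancel]

theorem both_ne {x y : Fin N → F} (hdet : J.det ≠ 0) (hx : x ≠ 0) (hy : y ≠ 0) :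
    ∃ b, Bf J b x ≠ 0 ∧ Bf J b y ≠ 0 := by
  obtain ⟨b, hb⟩ := exists_Bf_ne hdet hx
  obtain ⟨c, hc⟩ := exists_Bf_ne hdet hy
  by_cases h1 : Bf J b y = 0
  · by_cases h2 : Bf J c x = 0
    · refine ⟨b + c, ?_, ?_⟩
      · rw [Bf_add_left, h2, add_zero]; exact hb
      · rw [Bf_add_left, h1, zero_add]; exact hc
    · exact ⟨c, h2, hc⟩
  · exact ⟨b, hb, h1⟩

/-- **a matrix orthogonal, for the trace, to `1` and to all products of two elements of the Lie
algebra of the form is zero** -/
theorem zero_of_trace [CharZero F] (hJ : (Jᵀ = J ∧ 3 ≤ N) ∨ Jᵀ = -J) (hdet : J.det ≠ 0)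
    {M : Matrix (Fin N) (Fin N) F} (h1 : M.trace = 0)
    (h2 : ∀ X Y : Matrix (Fin N) (Fin N) F, Xᵀ * J + J * X = 0 → Yᵀ * J + J * Y = 0 →
      (M * (X * Y)).trace = 0) : M = 0 := by
  rcases hJ with ⟨hJ, hN⟩ | hJ
  · -- symmetric
    have h3 : ∀ a d : Fin N → F, Bf J d a = 0 → Bf J d (M *ᵥ a) = 0 := by
      intro a d had
      obtain ⟨c, hc, hcd⟩ := exists_perp (J := J) hN a d
      obtain ⟨b, hb, hbc⟩ : ∃ b, Bf J b d = 0 ∧ Bf J b c ≠ 0 := by
        by_contra hcon
        push Not at hcon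
        obtain ⟨μ, hμ⟩ := smul_of_ker hdet hcon
        apply hcd
        rw [hμ]
        exact Submodule.smul_mem _ _ (Submodule.mem_span_singleton_self d)
      have h4 := h2 _ _ (skew_sym hJ a b) (skew_sym hJ c d)
      have h5 : (er J a b - er J b a) * (er J c d - er J d c) = Bf J b c • er J a d := by
        rw [Matrix.sub_mul, Matrix.mul_sub, Matrix.mul_sub, er_mul, er_mul, er_mul, er_mul, hb, hc,
          Bf_symm hJ a d, had, zero_smul, zero_smul, zero_smul]
        simp
      rw [h5, Matrix.mul_smul, trace_smul, trace_er, smul_eq_mul] at h4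
      exact (mul_eq_zero.1 h4).resolve_left hbc
    have h4 : ∀ a : Fin N → F, ∃ μ : F, M *ᵥ a = μ • a := fun a =>
      smul_of_ker hdet fun d hd => h3 a d hd
    have hoff : ∀ i j, i ≠ j → M i j = 0 := by
      intro i j hij
      obtain ⟨μ, hμ⟩ := h4 (Pi.single j 1)
      have h5 := congrFun hμ i
      rw [mulVec_single_one, Matrix.col_apply, Pi.smul_apply, Pi.single_eq_of_ne hij,
        smul_zero] at h5
      exact h5
    have hdiag : ∀ i j, M i i = M j j := by
      intro i j
      by_cases hij : i = j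
      · rw [hij]
      obtain ⟨μ, hμ⟩ := h4 (Pi.single i 1 + Pi.single j 1)
      have h5 := congrFun hμ i
      have h6 := congrFun hμ j
      rw [mulVec_add, mulVec_single_one, mulVec_single_one, Pi.add_apply, Matrix.col_apply,
        Matrix.col_apply, Pi.smul_apply, Pi.add_apply, Pi.single_eq_same, Pi.single_eq_of_ne hij,
        add_zero, hoff i j hij, add_zero, smul_eq_mul, mul_one] at h5
      rw [mulVec_add, mulVec_single_one, mulVec_single_one, Pi.add_apply, Matrix.col_apply,
        Matrix.col_apply, Pi.smul_apply, Pi.add_apply, Pi.single_eq_same,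
        Pi.single_eq_of_ne (Ne.symm hij), zero_add, hoff j i (Ne.symm hij), zero_add,
        smul_eq_mul, mul_one] at h6
      rw [h5, h6]
    have i₀ : Fin N := ⟨0, by omega⟩
    have h5 : (N : F) * M i₀ i₀ = 0 := by
      rw [← h1]
      show (N : F) * M i₀ i₀ = ∑ i, M i i
      rw [Finset.sum_congr rfl fun i _ => hdiag i i₀, Finset.sum_const, Finset.card_univ,
        Fintype.card_fin, nsmul_eq_mul]
    have h6 : M i₀ i₀ = 0 := (mul_eq_zero.1 h5).resolve_left (by
      have : N ≠ 0 := by omega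
      exact_mod_cast this)
    ext i j
    by_cases hij : i = j
    · subst hij
      rw [hdiag i i₀, h6, Matrix.zero_apply]
    · rw [hoff i j hij, Matrix.zero_apply]
  · -- alternating
    have h3 : ∀ a : Fin N → F, M *ᵥ a = 0 := by
      intro a
      by_contra hne
      have ha : a ≠ 0 := by
        rintro rfl
        exact hne (mulVec_zero M)
      obtain ⟨b, hb1, hb2⟩ := both_ne hdet ha hne
      have h4 := h2 _ _ (skew_alt hJ a) (skew_alt hJ b)
      rw [er_mul, Matrix.mul_smul, trace_smul, trace_er, smul_eq_mul] at h4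
      have h5 : Bf J a b = - Bf J b a := by
        rw [Bf_eq, dotProduct_comm, ← mulVec_transpose, hJ, neg_mulVec, dotProduct_neg]
        rfl
      rw [h5] at h4
      rcases mul_eq_zero.1 h4 with h6 | h6
      · exact hb1 (neg_eq_zero.1 h6)
      · exact hb2 h6
    ext i j
    have h4 := congrFun (h3 (Pi.single j 1)) i
    rw [mulVec_single_one, Matrix.col_apply] at h4
    rw [h4]
    rfl

end

end Pool.Agent.U273.AI
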