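import Pool.Agent.U273.AI.Q
import Pool.Agent.R932.MtIndMain
import Pool.Agent.R932.MtEven
import Pool.Agent.R932.GR.Mtc

/-!
# The Mumford-Tate conjecture for `N ⊕ T` and the Lie algebra
-/

set_option autoImplicit false
set_option linter.unusedSectionVars false
set_option linter.style.haveILetI false

open Matrix Polynomial Filter Topology NumberField IsDedekindDomain
open Pool.Agent.Y142.ZO Pool.Agent.Y142.ZI
open Pool.Agent.Y142.ZS (NiceP GenP Sim SpLie)
open Pool.Agent.Y95.MT Pool.Agent.R932 Pool.Agent.R932.PO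
open Pool.Agent.W544.PG (HS BD)

namespace Pool.Agent.U273.AI

noncomputable section

section
variable {ℓ : ℕ} [hℓ : Fact ℓ.Prime] {n : ℕ} {κ : Type} [Fintype κ] [DecidableEq κ] {G : Type}
  [Group G] {T : HS n} {p q : Fin 1 → ℕ} {β : G →* Matrix (Fin n) (Fin n) ℤ_[ℓ]}
  {v : G →* Matrix κ κ ℚ_[ℓ]}

theorem bl_one1 {R : Type} [CommRing R] (i : Fin 1) (t : Matrix (Fin n) (Fin n) R) :
    Pool.Agent.W544.PG.bl (one1 n) i t = t := by
  ext a b
  unfold Pool.Agent.W544.PG.bl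
  rw [Matrix.of_apply, if_pos ⟨Subsingleton.elim _ _, Subsingleton.elim _ _⟩]

theorem inSO_one1 {R : Type} [CommRing R] [Algebra ℚ R] {Q : Matrix (Fin n) (Fin n) ℚ}
    {t : Matrix (Fin n) (Fin n) R} :
    InSO (one1 n) Q t ↔ tᵀ * Q.map (algebraMap ℚ R) * t = Q.map (algebraMap ℚ R) ∧ t.det = 1 := by
  constructor
  · rintro ⟨h1, -, h3⟩
    have h4 := h3 0
    rw [bl_one1] at h4
    exact ⟨h1, h4⟩
  · rintro ⟨h1, h2⟩
    refine ⟨h1, fun a b hab => absurd rfl hab, fun i => ?_⟩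
    rw [bl_one1, h2]

/-- the Mumford-Tate group is the full special orthogonal group of `T`, with trivial action on the
algebraic classes -/
def FullMT (T : HS n) (κ : Type) [Fintype κ] [DecidableEq κ] : Prop :=
  ∀ (R : Type) [Field R] [Algebra ℚ R] (_ : R →+* ℂ) (g : Matrix (κ ⊕ Fin n) (κ ⊕ Fin n) R),
    g.det ≠ 0 → (InMT (hM (fun _ => (1 : Matrix κ κ ℂ)) T) g ↔
      g = fromBlocks 1 0 0 g.toBlocks₂₂ ∧ InSO (one1 n) T.Q g.toBlocks₂₂)

theorem inMT_const {R : Type} [Field R] [Algebra ℚ R] (e : R →+* ℂ) {g : Matrix κ κ R} :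
    InMT (fun _ => (1 : Matrix κ κ ℂ)) g ↔ g = 1 := by
  have hone : MTgroup (fun _ => (1 : Matrix κ κ ℂ)) ⊆ {1} := by
    intro m hm
    refine hm {1} ⟨⟨{f | ∃ a b, f = MvPolynomial.X (a, b) -
      MvPolynomial.C ((1 : Matrix κ κ ℚ) a b)}, fun g => ?_⟩, rfl, ?_, ?_⟩ fun z _ => rfl
    · constructor
      · rintro rfl
        refine ⟨by simp, ?_⟩
        rintro _ ⟨a, b, rfl⟩
        unfold vQ
        rw [map_sub, MvPolynomial.aeval_X, MvPolynomial.aeval_C, Matrix.one_apply, Matrix.one_apply]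
        split_ifs <;> simp
      · rintro ⟨-, h⟩
        ext a b
        have h2 := h _ ⟨a, b, rfl⟩
        unfold vQ at h2
        rw [map_sub, MvPolynomial.aeval_X, MvPolynomial.aeval_C, sub_eq_zero] at h2
        rw [h2, Matrix.one_apply, Matrix.one_apply]
        split_ifs <;> simp
    · rintro a rfl b rfl
      simp
    · rintro a rfl
      simp
  constructor
  · intro h
    ext a b
    have h2 := h (MvPolynomial.X (a, b) - MvPolynomial.C ((1 : Matrix κ κ ℚ) a b)) fun m hm => by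
      have h3 := hone hm
      rw [Set.mem_singleton_iff] at h3
      rw [h3]
      unfold vQ
      rw [map_sub, MvPolynomial.aeval_X, MvPolynomial.aeval_C, Matrix.one_apply, Matrix.one_apply]
      split_ifs <;> simp
    unfold vQ at h2
    rw [map_sub, MvPolynomial.aeval_X, MvPolynomial.aeval_C, sub_eq_zero] at h2
    rw [h2, Matrix.one_apply, Matrix.one_apply]
    split_ifs <;> simp
  · rintro rfl
    exact InMT_one e _

theorem fullMT_of_big (hB : T.Big (one1 n) p q) : FullMT T κ := by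
  intro R _ _ e g hg
  rw [InMT_iff (c := one1 n) hB (fun _ _ => by rw [Matrix.det_one]; exact one_ne_zero) star_N e hg,
    inMT_const e]
  constructor
  · rintro ⟨h1, h2, h3⟩
    rw [h2] at h1
    exact ⟨h1, h3⟩
  · rintro ⟨h1, h3⟩
    have h2 : g.toBlocks₁₁ = 1 := by
      rw [h1, Matrix.toBlocks_fromBlocks₁₁]
    refine ⟨?_, h2, h3⟩
    rw [h2]
    exact h1

theorem fullMT_of_eq (h : MTgroup (hM (fun _ => (1 : Matrix κ κ ℂ)) T) =
    {m | ∃ t : Matrix (Fin n) (Fin n) ℂ, tᵀ * T.Q.map (algebraMap ℚ ℂ) * t =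
      T.Q.map (algebraMap ℚ ℂ) ∧ t.det = 1 ∧ m = fromBlocks 1 0 0 t}) : FullMT T κ := by
  intro R _ _ e g hg
  constructor
  · intro hg'
    obtain ⟨h1, h2⟩ := (PSO_iff (c := one1 n) (Q := T.Q) g).1 fun f hf => hg' f fun m hm => by
      rw [h] at hm
      obtain ⟨t, ht, htd, rfl⟩ := hm
      refine (PSO_iff (c := one1 n) (Q := T.Q) _).2 ⟨?_, ?_⟩ f hf
      · rw [Matrix.toBlocks_fromBlocks₁₁, Matrix.toBlocks_fromBlocks₂₂]
      · rw [Matrix.toBlocks_fromBlocks₂₂]
        exact inSO_one1.2 ⟨ht, htd⟩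
    have h3 : g.toBlocks₁₁ = 1 := by
      rw [← inMT_const (κ := κ) e]
      intro f hf
      rw [← vQ_up]
      refine hg' _ fun m hm => ?_
      rw [h] at hm
      obtain ⟨t, ht, htd, rfl⟩ := hm
      rw [vQ_up, Matrix.toBlocks_fromBlocks₁₁]
      exact hf 1 MT_one
    rw [h3] at h1
    exact ⟨h1, h2⟩
  · rintro ⟨h1, h2⟩ f hf
    have h3 : g.map e ∈ MTgroup (hM (fun _ => (1 : Matrix κ κ ℂ)) T) := by
      rw [h]
      obtain ⟨h4, h5⟩ := inSO_one1.1 (InSO_map e h2)
      refine ⟨_, h4, h5, ?_⟩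
      conv_lhs => rw [h1]
      rw [fb_map, Matrix.map_one e (map_zero e) (map_one e)]
    have h4 := hf _ h3
    rw [vQ_map] at h4
    exact (map_eq_zero e).1 h4

/-- from the Mumford-Tate conjecture to the points of the special orthogonal group -/
theorem so_of_mtc (hB : FullMT T κ)
    (h : MTC (hM (fun _ => (1 : Matrix κ κ ℂ)) T) (tot v β))
    {t : Matrix (Fin n) (Fin n) (AlgebraicClosure ℚ_[ℓ])} (ht : InSO (one1 n) T.Q t) :
    InG0 (qrep β) t := by
  obtain ⟨e⟩ := exists_emb ℓ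
  have hd := InSO_det (W74.PG.det_ne T) ht
  refine InG0_snd (v := v) ?_
  refine (h _ (by rw [fb_det, Matrix.det_one, one_mul]; exact hd)).2 ?_
  rw [hB _ e _ (by rw [fb_det, Matrix.det_one, one_mul]; exact hd),
    Matrix.toBlocks_fromBlocks₂₂]
  exact ⟨rfl, ht⟩

/-- **the Mumford-Tate conjecture implies absolute irreducibility** -/
theorem abs_of_mtc (hn : 3 ≤ n) (hB : FullMT T κ)
    (h : MTC (hM (fun _ => (1 : Matrix κ κ ℂ)) T) (tot v β)) : AbsIrr ℓ (qrep β) := by
  classical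
  intro W hW
  have h1 : W = ⊥ ∨ W = Y95.MT.col (one1 n) 0 := by
    refine SO_irr (F := AlgebraicClosure ℚ_[ℓ]) (c := one1 n) (i := 0) T.symm
      (fun a b hab => absurd rfl hab) (W74.PG.det_ne T) (by
        have h1 : (Finset.univ.filter fun a : Fin n => one1 n a = 0) = Finset.univ := by
          ext a
          simp
        rw [h1, Finset.card_univ, Fintype.card_fin]
        exact hn) (fun w _ a ha => absurd (Subsingleton.elim _ _) ha) ?_
    intro t ht w hw
    by_contra hcon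
    obtain ⟨φ, hφ, hφW⟩ := Submodule.exists_le_ker_of_notMem hcon
    have hlin : ∀ u : Fin n → AlgebraicClosure ℚ_[ℓ], φ u = ∑ a, φ (Pi.single a 1) * u a := by
      intro u
      conv_lhs => rw [← Finset.univ_sum_single u]
      rw [map_sum]
      refine Finset.sum_congr rfl fun a _ => ?_
      rw [show (Pi.single a (u a) : Fin n → AlgebraicClosure ℚ_[ℓ]) = u a • Pi.single a 1 by
        rw [← Pi.single_smul, smul_eq_mul, mul_one], map_smul, smul_eq_mul, mul_comm]
    obtain ⟨f, hf⟩ : ∃ f : MvPolynomial (Fin n × Fin n) (AlgebraicClosure ℚ_[ℓ]),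
        f = ∑ a, ∑ b, MvPolynomial.C (φ (Pi.single a 1) * w b) * MvPolynomial.X (a, b) := ⟨_, rfl⟩
    have hev : ∀ M : Matrix (Fin n) (Fin n) (AlgebraicClosure ℚ_[ℓ]),
        MvPolynomial.aeval (fun q : Fin n × Fin n => M q.1 q.2) f = φ (M *ᵥ w) := by
      intro M
      rw [hf, hlin, map_sum]
      refine Finset.sum_congr rfl fun a _ => ?_
      rw [Matrix.mulVec, dotProduct, Finset.mul_sum, map_sum]
      refine Finset.sum_congr rfl fun b _ => ?_
      rw [map_mul, MvPolynomial.aeval_X, MvPolynomial.aeval_C, Algebra.algebraMap_self,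
        RingHom.id_apply]
      ring
    have h1 := so_of_mtc hB h ht f ⟨⊤, inferInstance, fun s _ => by
      have h2 := hev ((qrep β s).map (algebraMap ℚ_[ℓ] (AlgebraicClosure ℚ_[ℓ])))
      have h3 := LinearMap.mem_ker.1 (hφW (hW s w hw))
      rw [h3] at h2
      exact h2⟩
    rw [hev t] at h1
    exact hφ h1
  rcases h1 with h1 | h1
  · exact Or.inl h1
  · right
    rw [h1, eq_top_iff]
    exact fun w _ a ha => absurd (Subsingleton.elim _ _) ha

variable [TopologicalSpace G] [IsTopologicalGroup G] [CompactSpace G]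

/-- **from the Mumford-Tate conjecture to the Lie algebra of the image** -/
theorem full_of_mtc (hn : 5 ≤ n) (hB : FullMT T κ) (hβ : Continuous β)
    (hform : ∀ σ, (qm (β σ))ᵀ * T.Q.map (algebraMap ℚ ℚ_[ℓ]) * qm (β σ) =
      T.Q.map (algebraMap ℚ ℚ_[ℓ]))
    (h : MTC (hM (fun _ => (1 : Matrix κ κ ℂ)) T) (tot v β)) :
    ∀ X, SpLie (T.Q.map (algebraMap ℚ ℚ_[ℓ])) X → IsTangent ℓ (qrep β) X := by
  have hIF : IsForm (T.Q.map (algebraMap ℚ ℚ_[ℓ])) := ⟨Or.inl ⟨qsymm T, hn⟩, qdet T⟩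
  have hall : ∀ f : GR.Pf (GR.Lc ℓ) (fun _ : Unit => n),
      (∀ σ : G, GR.evf (GR.up fun _ : Unit => qrep β σ) f = 0) →
      GR.Van (GR.up fun _ : Unit => T.Q.map (algebraMap ℚ ℚ_[ℓ])) f := by
    intro f hf x hx hxd
    have h1 : InSO (one1 n) T.Q (x ()) := by
      refine inSO_one1.2 ⟨?_, hxd ()⟩
      have h2 := hx ()
      have h3 : GR.up (fun _ : Unit => T.Q.map (algebraMap ℚ ℚ_[ℓ])) () =
          T.Q.map (algebraMap ℚ (GR.Lc ℓ)) := by
        ext a b
        show algebraMap ℚ_[ℓ] (GR.Lc ℓ) (algebraMap ℚ ℚ_[ℓ] (T.Q a b)) = _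
        have h4 : (algebraMap ℚ_[ℓ] (GR.Lc ℓ)).comp (algebraMap ℚ ℚ_[ℓ]) =
          algebraMap ℚ (GR.Lc ℓ) := Subsingleton.elim _ _
        exact RingHom.congr_fun h4 _
      rw [h3] at h2
      exact h2
    have key : ∀ M : Matrix (Fin n) (Fin n) (GR.Lc ℓ),
        MvPolynomial.aeval (fun q : Fin n × Fin n => M q.1 q.2)
          (MvPolynomial.rename (fun y : Σ _ : Unit, Fin n × Fin n => y.2) f) =
        GR.evf (fun _ : Unit => M) f := by
      intro M
      rw [MvPolynomial.aeval_rename]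
      unfold GR.evf
      rw [MvPolynomial.aeval_def, MvPolynomial.eval, MvPolynomial.coe_eval₂Hom]
      rfl
    have h2 := so_of_mtc hB h h1
      (MvPolynomial.rename (fun y : Σ _ : Unit, Fin n × Fin n => y.2) f) ⟨⊤, inferInstance,
        fun s _ => by
          have h3 := key ((qrep β s).map (algebraMap ℚ_[ℓ] (AlgebraicClosure ℚ_[ℓ])))
          have h4 := hf s
          refine Eq.trans ?_ (h3.trans h4)
          rfl⟩
    rw [key] at h2
    exact h2
  intro X hX
  have hc : Continuous (qrep β) := continuous_qm.comp hβ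
  obtain ⟨σ, hσ⟩ := GR.joint_of_zar (ι := Unit) (N := fun _ => n) (G := G)
    (ρ := fun _ => qrep β) (J := fun _ => T.Q.map (algebraMap ℚ ℚ_[ℓ])) (fun _ => hc)
    (fun _ => hIF) (fun _ => by omega) (fun _ g => ⟨1, by
      show (qm (β g))ᵀ * _ * qm (β g) = (1 : ℚ_[ℓ]) • _
      rw [one_smul]
      exact hform g⟩)
    (GR.zarF_of (fun _ => Or.inl (qsymm T)) (fun _ => qdet T) hall) (fun _ => X) (fun _ => hX)
  exact ⟨σ, hσ ()⟩

/-- **from the Lie algebra of the image to the Mumford-Tate conjecture** -/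
theorem mtc_of_full' (hB : FullMT T κ) (hv : Continuous v) (hvf : (Set.range v).Finite)
    (hβ : Continuous β) (hform : ∀ σ, (qm (β σ))ᵀ * T.Q.map (algebraMap ℚ ℚ_[ℓ]) * qm (β σ) =
      T.Q.map (algebraMap ℚ ℚ_[ℓ]))
    (hfull : ∀ X, SpLie (T.Q.map (algebraMap ℚ ℚ_[ℓ])) X → IsTangent ℓ (qrep β) X) :
    MTC (hM (fun _ => (1 : Matrix κ κ ℂ)) T) (tot v β) := by
  obtain ⟨e⟩ := exists_emb ℓ
  have hbd : ∀ {R : Type} [Zero R] (A : Matrix (Fin n) (Fin n) R), BD (one1 n) A :=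
    fun A a b hab => absurd rfl hab
  have hg : GalT (one1 n) T.Q β := ⟨hform, fun s => hbd _⟩
  have hcont : Continuous (tot v β) := by
    show Continuous fun s => (fromBlocks (v s) 0 0 (qm (β s)) :
      Matrix (κ ⊕ Fin n) (κ ⊕ Fin n) ℚ_[ℓ])
    exact hv.matrix_fromBlocks continuous_const continuous_const (continuous_qm.comp hβ)
  have htan : TanIn (one1 n) T v β :=
    tanIn_of_finite (continuous_qm.comp hβ) hv hvf fun X hX _ => hfull X hX
  have hso : SoIn (one1 n) T v β := soIn_of_tan (hbd _) hcont htan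
  intro g hgd
  rw [InG0_prod' hg (hbd _) hso e, hB _ e g hgd]
  constructor
  · rintro ⟨h1, h2, h3⟩
    have h4 : g.toBlocks₁₁ = 1 := by
      rw [← inMT_const (κ := κ) e]
      refine (MTC_N hvf _ fun h5 => hgd ?_).1 h2
      rw [h1, fb_det, h5, zero_mul]
    rw [h4] at h1
    exact ⟨h1, h3⟩
  · rintro ⟨h1, h3⟩
    have h4 : g.toBlocks₁₁ = 1 := by
      rw [h1, Matrix.toBlocks_fromBlocks₁₁]
    refine ⟨by rw [h4]; exact h1, ?_, h3⟩
    refine (MTC_N hvf _ (by rw [h4, det_one]; exact one_ne_zero)).2 ?_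
    rw [inMT_const (κ := κ) e]
    exact h4

end

end

end Pool.Agent.U273.AI
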