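import Pool.Agent.R932.PO.All
import Pool.Agent.U273.AI.Gen
import Pool.Agent.U273.AI.Blk

/-!
# Traces of compatible representations on cosets
-/

set_option autoImplicit false
set_option linter.unusedSectionVars false
set_option linter.style.haveILetI false

open Matrix Polynomial Filter Topology NumberField IsDedekindDomain
open Pool.Agent.Y142.ZO

namespace Pool.Agent.U273.AI

section transfer

variable {K : Type} [Field K] [NumberField K] {N : ℕ} {S : Set (HeightOneSpectrum (𝓞 K))}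
  {P : HeightOneSpectrum (𝓞 K) → ℚ[X]}

/-- the trace vanishes on an open set for one prime number if it vanishes there for another one -/
theorem trace_transfer (hS : S.Finite) {ℓ ℓ₀ : ℕ} [hℓ : Fact ℓ.Prime] [hℓ₀ : Fact ℓ₀.Prime]
    {ρ : GK K →* Matrix (Fin N) (Fin N) ℚ_[ℓ]} {ρ₀ : GK K →* Matrix (Fin N) (Fin N) ℚ_[ℓ₀]}
    (hρ₀ : Continuous ρ₀)
    (h : ∀ v ∉ S, (ℓ : 𝓞 K) ∉ v.asIdeal → ∀ σ : GK K, IsFrobenius v σ →
      (ρ σ⁻¹).charpoly = (P v).map (algebraMap ℚ ℚ_[ℓ]))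
    (h₀ : ∀ v ∉ S, (ℓ₀ : 𝓞 K) ∉ v.asIdeal → ∀ σ : GK K, IsFrobenius v σ →
      (ρ₀ σ⁻¹).charpoly = (P v).map (algebraMap ℚ ℚ_[ℓ₀]))
    {O : Set (GK K)} (hO : IsOpen O) (hz : ∀ σ ∈ O, (ρ σ).trace = 0) :
    ∀ σ ∈ O, (ρ₀ σ).trace = 0 := by
  intro σ₀ hσ₀
  by_contra hne
  rcases Nat.eq_zero_or_pos N with hN | hN
  · subst hN
    exact hne (by simp [Matrix.trace])
  haveI : Nonempty (Fin N) := ⟨⟨0, hN⟩⟩
  have hO' : IsOpen (O ∩ {σ | (ρ₀ σ).trace ≠ 0}) := by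
    refine hO.inter ?_
    have h1 : Continuous fun σ => (ρ₀ σ).trace := hρ₀.matrix_trace
    exact isOpen_ne_fun h1 continuous_const
  obtain ⟨v, hv, σ, hσ, hσO, hσt⟩ := Y405.ZO.t K _ hO' ⟨σ₀, hσ₀, hne⟩
    (S ∪ ({v : HeightOneSpectrum (𝓞 K) | (ℓ : 𝓞 K) ∈ v.asIdeal} ∪
      {v : HeightOneSpectrum (𝓞 K) | (ℓ₀ : 𝓞 K) ∈ v.asIdeal}))
    (hS.union ((finite_above ℓ hℓ.out).union (finite_above ℓ₀ hℓ₀.out)))
  have hvS : v ∉ S := fun h => hv (Or.inl h)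
  have hvℓ : (ℓ : 𝓞 K) ∉ v.asIdeal := fun h => hv (Or.inr (Or.inl h))
  have hvℓ₀ : (ℓ₀ : 𝓞 K) ∉ v.asIdeal := fun h => hv (Or.inr (Or.inr h))
  have h1 := hz _ hσO
  apply hσt
  rw [Matrix.trace_eq_neg_charpoly_coeff, h v hvS hvℓ σ hσ, Polynomial.coeff_map, neg_eq_zero,
    map_eq_zero] at h1
  rw [Matrix.trace_eq_neg_charpoly_coeff, h₀ v hvS hvℓ₀ σ hσ, Polynomial.coeff_map, h1, map_zero,
    neg_zero]

end transfer

section full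

variable {ℓ : ℕ} [hℓ : Fact ℓ.Prime] {N : ℕ} {G : Type} [Group G]

/-- the tangent vectors belong to the span of the image of a normal subgroup of finite index -/
theorem tangent_mem (ρ : G →* Matrix (Fin N) (Fin N) ℚ_[ℓ]) (Δ : Subgroup G) [hn : Δ.Normal]
    [hfi : Δ.FiniteIndex] {X : Matrix (Fin N) (Fin N) ℚ_[ℓ]} (hX : IsTangent ℓ ρ X)
    (𝒜 : Submodule ℚ_[ℓ] (Matrix (Fin N) (Fin N) ℚ_[ℓ])) (h𝒜 : ∀ δ ∈ Δ, ρ δ ∈ 𝒜) : X ∈ 𝒜 := by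
  haveI : T2Space (Matrix (Fin N) (Fin N) ℚ_[ℓ]) :=
    inferInstanceAs (T2Space (Fin N → Fin N → ℚ_[ℓ]))
  obtain ⟨σ, hσ⟩ := hX
  have hm0 : Δ.index ≠ 0 := hfi.index_ne_zero
  have hcl : IsClosed (𝒜 : Set (Matrix (Fin N) (Fin N) ℚ_[ℓ])) :=
    Submodule.closed_of_finiteDimensional 𝒜
  have hℓ0 : (ℓ : ℚ_[ℓ]) ≠ 0 := by exact_mod_cast hℓ.out.ne_zero
  -- the elements tend to one
  have h1 : Tendsto (fun n : ℕ => ρ (σ n)) atTop (𝓝 1) := by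
    have h2 : Tendsto (fun n : ℕ => (ℓ : ℚ_[ℓ]) ^ n) atTop (𝓝 0) := by
      refine tendsto_pow_atTop_nhds_zero_of_norm_lt_one ?_
      rw [Padic.norm_p]
      exact inv_lt_one_of_one_lt₀ (by exact_mod_cast hℓ.out.one_lt)
    have h3 := (h2.smul hσ).add_const (1 : Matrix (Fin N) (Fin N) ℚ_[ℓ])
    rw [zero_smul, zero_add] at h3
    refine h3.congr fun n => ?_
    rw [smul_smul, mul_inv_cancel₀ (pow_ne_zero n hℓ0), one_smul, sub_add_cancel]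
  have h2 : Tendsto (fun n : ℕ => (∑ i ∈ Finset.range Δ.index, ρ (σ n) ^ i) *
      (((ℓ : ℚ_[ℓ]) ^ n)⁻¹ • (ρ (σ n) - 1))) atTop
      (𝓝 ((∑ i ∈ Finset.range Δ.index, (1 : Matrix (Fin N) (Fin N) ℚ_[ℓ]) ^ i) * X)) := by
    refine Tendsto.mul ?_ hσ
    exact tendsto_finsetSum _ fun i _ => h1.pow i
  have h3 : ∀ n : ℕ, (∑ i ∈ Finset.range Δ.index, ρ (σ n) ^ i) *
      (((ℓ : ℚ_[ℓ]) ^ n)⁻¹ • (ρ (σ n) - 1)) ∈ 𝒜 := by
    intro n
    rw [Matrix.mul_smul, geom_sum_mul]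
    refine 𝒜.smul_mem _ (𝒜.sub_mem ?_ ?_)
    · rw [← map_pow]
      exact h𝒜 _ (Δ.pow_index_mem (σ n))
    · rw [← map_one ρ]
      exact h𝒜 _ Δ.one_mem
  have h4 := hcl.mem_of_tendsto h2 (Eventually.of_forall h3)
  have h5 : (∑ i ∈ Finset.range Δ.index, (1 : Matrix (Fin N) (Fin N) ℚ_[ℓ]) ^ i) * X =
      (Δ.index : ℚ_[ℓ]) • X := by
    simp only [one_pow, Finset.sum_const, Finset.card_range]
    rw [nsmul_eq_mul, mul_one, ← nsmul_eq_mul, Nat.cast_smul_eq_nsmul]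
  rw [h5] at h4
  have h6 : (Δ.index : ℚ_[ℓ]) ≠ 0 := by exact_mod_cast hm0
  have h7 := 𝒜.smul_mem (Δ.index : ℚ_[ℓ])⁻¹ h4
  rwa [smul_smul, inv_mul_cancel₀ h6, one_smul] at h7

/-- if the Lie algebra of the image contains the Lie algebra of the form, then the trace does not
vanish on a coset of a normal subgroup of finite index -/
theorem trace_ne (ρ : G →* Matrix (Fin N) (Fin N) ℚ_[ℓ]) {J : Matrix (Fin N) (Fin N) ℚ_[ℓ]}
    (hJ : (Jᵀ = J ∧ 3 ≤ N) ∨ Jᵀ = -J) (hdet : J.det ≠ 0) (hN : 0 < N)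
    (hfull : ∀ X, Xᵀ * J + J * X = 0 → IsTangent ℓ ρ X) (Δ : Subgroup G) [hn : Δ.Normal]
    [hfi : Δ.FiniteIndex] (g : G) (hz : ∀ δ ∈ Δ, (ρ (g * δ)).trace = 0) : False := by
  obtain ⟨𝒜, h𝒜⟩ : ∃ 𝒜 : Subalgebra ℚ_[ℓ] (Matrix (Fin N) (Fin N) ℚ_[ℓ]),
      ∀ A, A ∈ 𝒜 ↔ A ∈ Submodule.span ℚ_[ℓ] (ρ '' (Δ : Set G)) := by
    refine ⟨Algebra.adjoin ℚ_[ℓ] ((Δ.toSubmonoid.map ρ : Submonoid _) : Set _), fun A => ?_⟩
    rw [← Subalgebra.mem_toSubmodule, Algebra.adjoin_eq_span, Submonoid.closure_eq,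
      Submonoid.coe_map]
    rfl
  have htan : ∀ X, Xᵀ * J + J * X = 0 → X ∈ 𝒜 := by
    intro X hX
    rw [h𝒜]
    exact tangent_mem ρ Δ (hfull X hX) _ (fun δ hδ => Submodule.subset_span ⟨δ, hδ, rfl⟩)
  have hzero : ∀ A ∈ 𝒜, (ρ g * A).trace = 0 := by
    intro A hA
    rw [h𝒜] at hA
    induction hA using Submodule.span_induction with
    | mem x hx =>
      obtain ⟨δ, hδ, rfl⟩ := hx
      rw [← map_mul]
      exact hz δ hδ
    | zero => rw [Matrix.mul_zero, Matrix.trace_zero]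
    | add x y hx hy hx' hy' => rw [Matrix.mul_add, Matrix.trace_add, hx', hy', add_zero]
    | smul a x hx hx' => rw [Matrix.mul_smul, Matrix.trace_smul, hx', smul_zero]
  have h1 : ρ g = 0 := by
    refine zero_of_trace hJ hdet ?_ fun X Y hX hY => hzero _ (𝒜.mul_mem (htan X hX) (htan Y hY))
    have := hzero 1 𝒜.one_mem
    rwa [Matrix.mul_one] at this
  have h2 : ρ g * ρ g⁻¹ = 1 := by rw [← map_mul, mul_inv_cancel, map_one]
  rw [h1, Matrix.zero_mul] at h2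
  have h3 := congrFun (congrFun h2 ⟨0, hN⟩) ⟨0, hN⟩
  rw [Matrix.zero_apply, Matrix.one_apply_eq] at h3
  exact zero_ne_one h3

end full

end Pool.Agent.U273.AI
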